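import Pool.Agent.H848.HM.Main
import Pool.Graph.R_pool_sql_team_seeded_63374d34.N916.GB.Num

/-!
# The conjecture of Bloch and Kato for conjugate self-dual cuspidal representations of `GL_2` over the imaginary
# quadratic fields `ℚ(√(-7 N(M)))`, in all weights, at the prime 2

`K = ℚ(√-7)` has the ring of integers `ℤ[ω]`, `ω² = ω - 2`; `(2) = (ω) (1 - ω)`. For `M ∈ ℤ[ω]` let `E_M` be the
quadratic twist by `M` of `X_0(49)`, with the Hecke character `ψ_M` over `K`, and let the Galois group of `K` act on
the `2`-adic Tate module of `E_M` by `κ`, `κ'`. The theta series `f` of `ψ_M^{2k-1}` is a newform over `ℚ` of weight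
`2 k`, whose character `ε` is the quadratic character of the real field `ℚ(√N(M))`, `N(M) = M M̄` not being a square.
So `f` is not self-dual, but its base change `π` to the imaginary quadratic field `F = ℚ(√(-7 N(M)))` is conjugate
self-dual: `ε` becomes the character of the extension `K F` over `F` by which `f` has complex multiplication. `π`
(twisted to motivic weight `-1`) is a regular algebraic cuspidal representation of `GL_2` over `F` as in the problem;
it is the automorphic induction of a Hecke character of `K F`.

* The representation `V` of `Gal(ℚ̄/F)` attached to `π` is the restriction of the representation of `Gal(ℚ̄/ℚ)` that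
  is induced by the character `κ^k κ'^(1-k)` of `Gal(ℚ̄/K)`.
* `L(s, π)` is the `L`-function of the Hecke character `ψ_M^{2k-1}` over `K F`, hence the product of
  `L(ψ_M^{2k-1}, s + k)` and `L(ψ_{M̄}^{2k-1}, s + k)` (the twist by `N(M)` turns `M` into `M² M̄`). The second factor is
  `L(conj ψ_M^{2k-1}, s + k)`, since `X_0(49)` is defined over `ℚ`. So `L(s, π) = L_{M, k}(s + k)`, where `L_{M, k}` is
  the `L`-function over `K` with the factors `(1 - (α^{2k-1} + β^{2k-1}) N v^{-s} + N v^{2k-1-2s})⁻¹`,
  `α + β = a_v(E_M)`, `α β = N v`.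

The class consists of all the squarefree `D ≡ 1 mod 8` in `ℤ[ω]`, prime to `√-7`. `D` is good if the matrix `M_S` over
`𝔽_2` of the quadratic residue symbols of its primary prime factors is not singular, and very good if also the matrix
bordered by the symbols of the two primes above two is not singular. We prove:

1. If `M` is good (up to a square) then the order formula holds for `p = 2` and the representations `π` of `GL_2` over
`F = ℚ(√(-7 N(M)))` for all odd `k`, and if `M` is very good it holds for all `k ≥ 1`, that is in all weights: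
`L(s, π)` is entire and of order `0` at `s = 0`, and `H^1_f(F, V) = H^0(F, V) = 0`.
2. In the class, ordered by the norm, the `M` with the first property have exactly the natural density
`c = ∏ (1 - 2^{-i}) = 0.288…`, and the `M` with the second property exactly `c / 2`. So there are infinitely many such
fields, and the root number is `1` for a positive proportion of them in all the weights.
-/

set_option autoImplicit false

namespace Pool.Agent.Results.MP_7c08ba_nt.BaseChangesAllWeights

open Filter Topology
open scoped Classical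
open Pool.Agent.H519.KW.Fd (OK Adm Good VeryGood norm Density)
open Pool.Agent.H848.HM

/-- `M` has the property `P`: the norm of `M` is not a square, so that `F = ℚ(√(-7 N(M)))` is an imaginary quadratic
field different from `K`, and `M` is, up to a nonzero square, an element `D` of the class with `P D`. -/
def Data (P : OK → Prop) (M : OK) : Prop :=
  ¬ IsSquare (norm M) ∧ ∃ D z : OK, z ≠ 0 ∧ Adm D ∧ P D ∧ M = D * z ^ 2

/-- The function `Λ` is `L(s, π)`, with the centre `s = 0`. -/
def IsLPi (M : OK) (k : ℕ) (Λ : ℂ → ℂ) : Prop :=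
  ∃ (D z : OK) (L : ℂ → ℂ), z ≠ 0 ∧ Adm D ∧ M = D * z ^ 2 ∧ IsL D k L ∧ ∀ s, Λ s = L (s + k)

/-- The order formula at `p = 2` for the representation `π` of weight `2 k` over `F = ℚ(s)`: the `L`-function is entire
and of order zero at the centre, and `H^1_f(F, V) = H^0(F, V) = 0` for the representation `V` induced by
`κ^k κ'^(1-k)`. -/
def OrderFormula {w : QBar} (κ κ' : Chr w) (τ : GQ) (M : OK) (s : QBar) (k : ℕ) : Prop :=
  (∃ Λ : ℂ → ℂ, Differentiable ℂ Λ ∧ IsLPi M k Λ ∧ analyticOrderAt Λ 0 = 0) ∧
    SelmerZero (GalF fun _ : Fin 1 => s) (chi κ κ' k) τ ∧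
    InvariantsZero (GalF fun _ : Fin 1 => s) (chi κ κ' k) τ

/-- The curve `E_M` is isomorphic to the elliptic curve `ED w (tw M)`, the Galois group of `K` acts on its `2`-adic
Tate module by `κ`, `κ'`, and the order formula holds over `F = ℚ(√(-7 N(M)))` for all the weights `2 k`, `k ≥ 1`,
such that `k` has the property `C`. -/
def AllWeights (C : ℕ → Prop) (M : OK) : Prop :=
  ∀ w : QBar, w ^ 2 = w - 2 →
  Iso (EK w M) (ED w (tw M)) ∧ (ED w (tw M)).IsElliptic ∧
  ∃ κ κ' : Chr w, TateModule (tw M) κ κ' ∧
    ∀ τ : GQ, τ w = 1 - w → ∀ s : QBar, s ^ 2 = ((-7 * norm M : ℤ) : QBar) → ∀ k : ℕ, 1 ≤ k → C k →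
      OrderFormula κ κ' τ M s k

/-- The proportion `(1 - 1/2) (1 - 1/4) (1 - 1/8) ⋯`. -/
noncomputable def c : ℝ := ∏' i : ℕ, (1 - (1 / 2 : ℝ) ^ (i + 1))

section proof

lemma all_weights {P : OK → Prop} {C : ℕ → Prop}
    (hP : ∀ k, 1 ≤ k → C k → ∀ D, Adm D → P D → Gk k D ∧ Gk k (cj D))
    {M : OK} (h : Data P M) : AllWeights C M := by
  intro w hw
  obtain ⟨-, D, z, hz, hD, hPD, he⟩ := h
  have hM0 : M ≠ 0 := by
    rw [he]
    exact mul_ne_zero hD.1.ne_zero (pow_ne_zero 2 hz)
  obtain ⟨h1, h2, κ, κ', h3, -, h4⟩ := sel_all hw hM0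
  refine ⟨h1, h2, κ, κ', h3, fun τ hτ s hs k hk hC => ?_⟩
  have hG := hP k hk hC D hD hPD
  refine ⟨?_, h4 k hk ⟨D, z, hz, hD, hG, he⟩ τ hτ (fun _ => s) hs⟩
  obtain ⟨L, hL, hL0⟩ := exists_L hD hk hG.1
  refine ⟨fun s => L (s + k), hL.1.comp (differentiable_id.add_const _),
    ⟨D, z, L, hz, hD, he, hL, fun _ => rfl⟩, ?_⟩
  rw [analyticOrderAt_eq_zero]
  right
  rw [zero_add]
  exact hL0

end proof

/-- **The conjecture of Bloch and Kato in all weights.** If `M` is good then the order formula holds for the prime `2`
and all the conjugate self-dual cuspidal representations `π` of `GL_2` over `F = ℚ(√(-7 N(M)))` of weight `2 k`, `k`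
odd, attached to `M`, and if `M` is very good then it holds for all `k ≥ 1`. The natural density, in the class ordered
by the norm, of the good `M` (whose norm is not a square) is `c`, and of the very good ones `c / 2`; `c = 0.288…`. -/
theorem result :
    (∀ M : OK, Data Good M → AllWeights Odd M) ∧
    (∀ M : OK, Data VeryGood M → AllWeights (fun _ => True) M) ∧
    Density 1 (Data Good) c ∧ Density 1 (Data VeryGood) (c / 2) ∧
    0.2887 < c ∧ c < 0.2889 := by
  have h0 : IntCl (fun i : Fin 0 => i.elim0) :=
    ⟨fun i => i.elim0, fun T hT => by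
      obtain ⟨i, _⟩ := hT
      exact i.elim0⟩
  refine ⟨fun _ h => all_weights (fun _ _ hk _ hD hG => gk_good hk hD hG) h,
    fun _ h => all_weights (fun k _ _ _ hD hG => gk_very k hD hG) h, ?_, ?_,
    Pool.Agent.N916.GB.eta_bounds.1, Pool.Agent.N916.GB.eta_bounds.2⟩
  · have h1 := Pool.Agent.H519.KW.Dn.dens_one (inClass_int h0)
    rw [pow_zero, pow_one] at h1
    exact dens_im h1
  · have h1 := Pool.Agent.H519.KW.Dn.dens_two (inClass_int h0)
    rw [pow_zero, pow_one] at h1
    exact dens_im h1

end Pool.Agent.Results.MP_7c08ba_nt.BaseChangesAllWeights
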