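import Pool.Agent.H499.CQ.Adm

/-!
# Eisenstein and endoscopic congruences on unitary groups and Bloch-Kato Selmer groups

Q1 predicts `H¹_f(F, ρ_π) ≠ 0` when `L(0, π) = 0`, and the sign statement is the case `ε(π) = -1`. The only known method for
all `n` (Bellaïche, Bellaïche-Chenevier, Skinner-Urban) has three steps. (1) `L(0, π) = 0` or `ε(π) = -1` gives an
Eisenstein or endoscopic point of type `ℚ_p(1) ⊕ ρ_π ⊕ 1`, more generally with more pieces, on an eigenvariety (or a Hecke
algebra) of a larger unitary group, which lies on irreducible families; the constant term of the Eisenstein series is a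
product of `L`-functions, one for each root in the unipotent radical. (2) Let `T` be the completed local ring and `I` the
Eisenstein ideal, or any ideal modulo which the trace is reducible. `T` carries irreducible conjugate self-dual families of
Galois representations, which modulo `I` are sums of the pieces; a lattice construction gives Selmer classes. (3) The classes
for the other roots are excluded (units, class groups, Selmer groups of characters). Step (2) is known at a point `T/I = k`
with three pieces, and for families with two pieces, or three pieces when the extensions of the other types vanish. We prove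
it in general: any number of pieces, any complete Noetherian local coefficient ring `T`, any `I`, and with the contributions
predicted by the constant term, one for each root with its sign, and only these.

Let `T` be a complete Noetherian local ring in a finite product of fields `L_κ`, `G` a group (`G_F`, `F` imaginary quadratic, or
`G_ℚ`), `θ` an involution of `G` (complex conjugation, or trivial), `r_κ : G → GL_N(L_κ)` absolutely irreducible
with traces in `T` and polarised, `r_κ(g)ᵀ F_κ r_κ(θ g) = μ(g) F_κ`, `F_κᵀ = ε F_κ`. Let `I ≠ T` be an ideal and `ρ_1, …, ρ_s`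
representations over `T/I` whose sum has the trace of `(r_κ)` modulo `I`, with absolutely irreducible and pairwise
non-isomorphic reductions; the duality permutes them, `ρ_{i*}` is dual to `ρ_i`. Let `P` be a class of `T[G]`-modules closed under
quotients and finite sums, containing the `G`-stable lattices of `⊕ r_κ` (the local conditions). Let `A` be a set of pieces
with `A ∩ A* = ∅` (the Levi subgroup of the Eisenstein series: `A`, `A*` and the rest). Consider the pairs `(i, j)`, `i ∈ A`,
`j ∉ A`; they are the roots in the unipotent radical, and `(i, j)` and `(j*, i*)` (if `j* ∈ A`) are the same root. Choose one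
pair for each root, and let `Y_ij` be the dual of the Selmer group of `Hom(ρ_j, ρ_i) ⊗ (T/I)^∨` defined by `P`; for the roots
`(i, i*)` let `Z_i` be the dual of the subgroup of the extensions which carry an `ε`-symmetric form extending the pairing of
`ρ_i` and `ρ_{i*}` (one sign of the involution on `Hom(ρ_{i*}, ρ_i)`: one Asai sign, or `Λ²` or `Sym²` if `θ = 1`).

THEOREM. The product of the Fitting ideals of the `Y_ij` and `Z_i` over `T/I` is zero. So at every prime ideal `𝔮` of `T/I` one of
these modules is supported, and if `T/I` is a quotient of `Λ` and `Λ_𝔭` is a discrete valuation ring, the length of `T/I` at `𝔭` is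
at most the sum of the lengths of the `Y_ij` and `Z_i` at `𝔭`.

For Q1: three pieces `ℚ_p(1)`, `1 = ℚ_p(1)*` and `ρ = ρ*` (lifting `ρ_π`), `A = {ℚ_p(1)}`. The root `(ℚ_p(1), ρ)` has the Selmer
group of `ρ^∨(1) ≅ ρ^c`, that is of `ρ_π` (complex conjugation), and `Z` consists of the classes in `H¹(F, ℚ_p(1))` of one
sign, which are excluded by the local conditions (units of an imaginary quadratic field). If `T/I` is the field `k`, then the
theorem says that `Y` or `Z` is not zero, so `H¹_f(F, ρ_π) ≠ 0`. If `𝔮` is a prime of `T/I` (the zero of an `L`-function in a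
family) and `Z` is not supported at `𝔮`, then the Selmer group of `ρ` over the residue field of `𝔮` is not zero; no
hypothesis on `𝔮` or on the regularity of `T/I` is needed, nor one on the Selmer groups at the closed point.

Without the polarisation every `(i, j)` counts and `Z_i` is the whole Selmer group (this is MP_1186d4_nt.FittingCuts); so a
root `(i, j)`, `j* ∈ A`, would be counted twice and the bound would not be the one predicted by the constant term.

Idea of the proof. The `T`-span of the `r(g)` is a generalised matrix algebra `(a_ij)`, `a_ij ⊂ ∏ L_κ`, and the polarisation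
gives units `q_i` of `∏ L_κ` with `q_i a_{i*j} = q_j a_{j*i}`. The modules `a_ij`, for one pair of each class, form a module
over a second generalised matrix algebra, with index set the set of the classes and coefficients
`a_ii' a_j'j + (q_{i'*}/q_{j'}) a_{ij'*} a_{i'*j}`: direct steps and steps through the duality. Matrices of relations of
`X_ij = a_ij / (∑ a_il a_lj + I a_ij)` lift to a matrix which kills a generic vector; its determinant is zero, and modulo
`I` it is the product of the determinants. The matrix `F` itself, in the block `(i*, i*)`, gives the form on the universal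
extension with values in `X_ii*`.
-/

set_option autoImplicit false

namespace Pool.Agent.Results.MP_7c08ba_nt.PolarisedCuts

open Matrix IsLocalRing
open Pool.Agent.H499.CF (Hyp fam rix joint_span rix_span rix_trace t_GMA t_EXT t_MEM t_LOC)
open Pool.Agent.H499.CQ (main supp loc_mult2 t_POL t_SGN t_SCH t_PROD)

/-! ### Representations -/

section reps

variable {G A : Type} [Group G] [CommRing A] {n : ℕ}

/-- the matrix of `g` -/
def mat (ρ : G →* GL (Fin n) A) (g : G) : Matrix (Fin n) (Fin n) A := ρ g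

/-- `ρ` as a homomorphism to the monoid of matrices -/
def hom (ρ : G →* GL (Fin n) A) : G →* Matrix (Fin n) (Fin n) A := (Units.coeHom _).comp ρ

/-- the trace of `g` -/
def tr (ρ : G →* GL (Fin n) A) (g : G) : A := (mat ρ g).trace

/-- a representation over a field is absolutely irreducible: the matrices span the matrix algebra (Burnside) -/
def AbsolutelyIrreducible {k : Type} [Field k] (ρ : G →* GL (Fin n) k) : Prop :=
  0 < n ∧ Submodule.span k (Set.range (mat ρ)) = ⊤

/-- the reduction of `ρ` is absolutely irreducible, for the homomorphisms from `A` onto fields (`A` will be local) -/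
def ResiduallyIrreducible (ρ : G →* GL (Fin n) A) : Prop :=
  0 < n ∧ ∀ (k : Type) [Field k] (π : A →+* k), Function.Surjective π →
    Submodule.span k (Set.range fun g => (mat ρ g).map π) = ⊤

/-- the reductions of `ρ` and `τ` have different traces -/
def ResiduallyDifferent {m : ℕ} (ρ : G →* GL (Fin n) A) (τ : G →* GL (Fin m) A) : Prop :=
  ∀ (k : Type) [Field k] (π : A →+* k), Function.Surjective π → ∃ g, π (tr ρ g) ≠ π (tr τ g)

end reps

/-! ### Modules -/

section modules

variable {R : Type} [CommRing R]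

/-- the Fitting ideal of a module `X`: generated by the determinants of the square matrices of relations between the
members of finite systems of generators -/
def Fitt (R X : Type) [CommRing R] [AddCommGroup X] [Module R X] : Ideal R :=
  Ideal.span {z | ∃ (m : ℕ) (y : Fin m → X) (C : Matrix (Fin m) (Fin m) R),
    Submodule.span R (Set.range y) = ⊤ ∧ (∀ p, ∑ q, C p q • y q = 0) ∧ z = C.det}

/-- the length of the localisation of the `Λ`-module `X` at the prime ideal `𝔭`; for `𝔭` of height one in a normal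
domain this is the exponent of `𝔭` in the characteristic ideal -/
noncomputable def lengthAt {Λ : Type} [CommRing Λ] (𝔭 : Ideal Λ) [𝔭.IsPrime] (X : Type) [AddCommGroup X]
    [Module Λ X] : ℕ∞ := Module.length (Localization.AtPrime 𝔭) (LocalizedModule 𝔭.primeCompl X)

/-- the same for a module over a `Λ`-algebra `R` -/
noncomputable def multiplicity {Λ : Type} [CommRing Λ] [Algebra Λ R] (𝔭 : Ideal Λ) [𝔭.IsPrime] (X : Type)
    [AddCommGroup X] [Module R X] : ℕ∞ :=
  letI := Module.compHom X (algebraMap Λ R)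
  lengthAt 𝔭 X

variable {G : Type} [Group G] {a b : ℕ}

/-- `c` is a cocycle of `G` with values in `Hom(τ, ρ) ⊗ M`, written such that the matrices `(ρ c; 0 τ)` are a
representation: `c(gh) = ρ(g) c(h) + c(g) τ(h)` -/
def IsCocycle {M : Type} [AddCommGroup M] [Module R M] (τ : G →* GL (Fin b) R) (ρ : G →* GL (Fin a) R)
    (c : G → Fin a → Fin b → M) : Prop :=
  ∀ g h p q, c (g * h) p q = ∑ s, mat ρ g p s • c h s q + ∑ s, mat τ h s q • c g p s

/-- `c` is a coboundary: `c(g) = ρ(g) x - x τ(g)` -/
def IsCoboundary {M : Type} [AddCommGroup M] [Module R M] (τ : G →* GL (Fin b) R) (ρ : G →* GL (Fin a) R)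
    (c : G → Fin a → Fin b → M) : Prop :=
  ∃ x : Fin a → Fin b → M, ∀ g p q, c g p q = ∑ s, mat ρ g p s • x s q - ∑ s, mat τ g s q • x p s

/-- the extension `0 → ρ ⊗ M → U → τ → 0` given by the cocycle `c`: `G` acts on `M^a × R^b` by the matrices
`(ρ c; 0 τ)` -/
def extension {M : Type} [AddCommGroup M] [Module R M] (τ : G →* GL (Fin b) R) (ρ : G →* GL (Fin a) R)
    (c : G → Fin a → Fin b → M) (g : G) (v : (Fin a → M) × (Fin b → R)) : (Fin a → M) × (Fin b → R) :=
  (fun p => ∑ s, mat ρ g p s • v.1 s + ∑ s, v.2 s • c g p s, mat τ g *ᵥ v.2)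

end modules

/-- a class of `T`-modules `V` with an action `G → V → V`, closed under quotients and finite direct sums -/
structure Class (T G : Type) [CommRing T] where
  mem : ∀ (V : Type) [AddCommGroup V] [Module T V], (G → V → V) → Prop
  quot : ∀ (V W : Type) [AddCommGroup V] [Module T V] [AddCommGroup W] [Module T W] (π : G → V → V)
    (π' : G → W → W) (f : V →ₗ[T] W), (∀ g v, f (π g v) = π' g (f v)) → Function.Surjective f →
    mem V π → mem W π'
  sum : ∀ (ι : Type) [Fintype ι] (V : ι → Type) [∀ i, AddCommGroup (V i)] [∀ i, Module T (V i)]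
    (π : ∀ i, G → V i → V i), (∀ i, mem (V i) (π i)) → mem (∀ i, V i) fun g v i => π i g (v i)

section lattices

variable {T G K : Type} {L : K → Type} [CommRing T] [Group G] [∀ κ, Field (L κ)] [∀ κ, Algebra T (L κ)] {n : ℕ}

/-- the action of `G` on `∏ (L κ) ^ n` by the representations `r κ` -/
def act (r : ∀ κ, G →* GL (Fin n) (L κ)) (g : G) (v : Fin n → ∀ κ, L κ) : Fin n → ∀ κ, L κ :=
  fun x κ => ∑ y, mat (r κ) g x y * v y κ

/-- the class `P` contains all finitely generated `G`-stable `T`-submodules of `∏ (L κ) ^ n` -/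
def ContainsLattices (P : Class T G) (r : ∀ κ, G →* GL (Fin n) (L κ)) : Prop :=
  ∀ (N : Submodule T (Fin n → ∀ κ, L κ)) (hs : ∀ g, ∀ v ∈ N, act r g v ∈ N), N.FG →
    P.mem N (fun g v => ⟨act r g v, hs g v v.2⟩)

end lattices

/-- `(Y, u)` is versal for the extensions of `τ` by `ρ ⊗ M` in the class `P`: every cocycle with values in
`Hom(τ, ρ) ⊗ M`, `M` a finitely generated `T / I`-module, whose extension is in `P`, is `h ∘ u` for some homomorphism
`h : Y → M`, up to a coboundary. So `Y` generates the dual of the Selmer group `H¹_P(G, Hom(τ, ρ) ⊗ (T/I)^∨)`. -/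
def Versal {T G : Type} [CommRing T] [Group G] {I : Ideal T} {a b : ℕ} (P : Class T G) (τ : G →* GL (Fin b) (T ⧸ I))
    (ρ : G →* GL (Fin a) (T ⧸ I)) (Y : Type) [AddCommGroup Y] [Module T Y] (u : G → Fin a → Fin b → Y) : Prop :=
  ∀ (M : Type) [AddCommGroup M] [Module T M] [Module (T ⧸ I) M] [IsScalarTower T (T ⧸ I) M] [Module.Finite T M]
    (c : G → Fin a → Fin b → M), IsCocycle τ ρ c → P.mem _ (extension τ ρ c) →
      ∃ h : Y →ₗ[T] M, IsCoboundary τ ρ fun g p q => c g p q - h (u g p q)

/-! ### Polarisations -/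

section polar

variable {A G : Type} [CommRing A] [Group G] {m n : ℕ}

/-- `F` is a nondegenerate `ε`-symmetric form with `ρ(g)ᵀ F ρ(θ g) = μ(g) F` -/
def IsForm (θ : G →* G) (μ : G → A) (ε : A) (ρ : G →* GL (Fin n) A) (F : Matrix (Fin n) (Fin n) A) : Prop :=
  IsUnit F.det ∧ Fᵀ = ε • F ∧ ∀ g, (mat ρ g)ᵀ * F * mat ρ (θ g) = μ g • F

/-- `B` is a perfect pairing between `ρ` and `τ ∘ θ` with values in `μ`: `τ ≅ μ (ρ ∘ θ)^∨` -/
def IsPairing (θ : G →* G) (μ : G → A) (ρ : G →* GL (Fin m) A) (τ : G →* GL (Fin n) A)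
    (B : Matrix (Fin m) (Fin n) A) : Prop :=
  (∃ B' : Matrix (Fin n) (Fin m) A, B * B' = 1 ∧ B' * B = 1) ∧ ∀ g, (mat ρ g)ᵀ * B * mat τ (θ g) = μ g • B

/-- the extension of `τ` by `ρ ⊗ M` given by the cocycle `c` carries a form with the matrix `(0 B; ε Bᵀ x)`, `x` with
values in `M`: `c(g)ᵀ B τ(θ g) + ε τ(g)ᵀ Bᵀ c(θ g) + τ(g)ᵀ x τ(θ g) = μ(g) x` (`ε xᵀ` satisfies the same equation) -/
def IsPolarised {M : Type} [AddCommGroup M] [Module A M] (θ : G →* G) (μ : G → A) (ε : A)
    (B : Matrix (Fin m) (Fin n) A) (τ : G →* GL (Fin n) A) (c : G → Fin m → Fin n → M) : Prop :=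
  ∃ x : Fin n → Fin n → M, ∀ g p q,
    ∑ s, ∑ s', (B s s' * mat τ (θ g) s' q) • c g s p + ε • ∑ s, ∑ s', (mat τ g s' p * B s s') • c (θ g) s q +
      ∑ s, ∑ s', (mat τ g s p * mat τ (θ g) s' q) • x s s' = μ g • x p q

/-- `(Z, w)` is versal for the polarised extensions of `τ` by `ρ ⊗ M` in the class `P` -/
def VersalPolarised {T G : Type} [CommRing T] [Group G] {I : Ideal T} {a b : ℕ} (P : Class T G) (θ : G →* G)
    (μ : G → T ⧸ I) (ε : T ⧸ I) (B : Matrix (Fin a) (Fin b) (T ⧸ I)) (τ : G →* GL (Fin b) (T ⧸ I))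
    (ρ : G →* GL (Fin a) (T ⧸ I)) (Z : Type) [AddCommGroup Z] [Module T Z] (w : G → Fin a → Fin b → Z) : Prop :=
  ∀ (M : Type) [AddCommGroup M] [Module T M] [Module (T ⧸ I) M] [IsScalarTower T (T ⧸ I) M] [Module.Finite T M]
    (c : G → Fin a → Fin b → M), IsCocycle τ ρ c → IsPolarised θ μ ε B τ c → P.mem _ (extension τ ρ c) →
      ∃ h : Z →ₗ[T] M, IsCoboundary τ ρ fun g p q => c g p q - h (w g p q)

end polar

/-! ### Auxiliary statements -/

section aux

theorem fitt_surj {R X Y : Type} [CommRing R] [AddCommGroup X] [Module R X] [AddCommGroup Y] [Module R Y]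
    (f : Y →ₗ[R] X) (hf : Function.Surjective f) : Fitt R Y ≤ Fitt R X := by
  refine Ideal.span_le.2 ?_
  rintro z ⟨m, y, C, h1, h2, rfl⟩
  refine Ideal.subset_span ⟨m, fun q => f (y q), C, ?_, fun p => ?_, rfl⟩
  · have h3 : Set.range (fun q => f (y q)) = f '' Set.range y := (Set.range_comp f y)
    rw [h3, ← Submodule.map_span, h1, Submodule.map_top, LinearMap.range_eq_top]
    exact hf
  · have h3 := congrArg f (h2 p)
    rw [map_sum, map_zero] at h3
    simpa only [map_smul] using h3

/-- a homomorphism of `T`-modules between `T / I`-modules is one of `T / I`-modules -/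
def liftQ {T X Y : Type} [CommRing T] (I : Ideal T) [AddCommGroup X] [Module T X] [Module (T ⧸ I) X]
    [IsScalarTower T (T ⧸ I) X] [AddCommGroup Y] [Module T Y] [Module (T ⧸ I) Y] [IsScalarTower T (T ⧸ I) Y]
    (f : Y →ₗ[T] X) : Y →ₗ[T ⧸ I] X where
  toFun := f
  map_add' := f.map_add
  map_smul' a y := by
    obtain ⟨b, rfl⟩ := Ideal.Quotient.mk_surjective a
    rw [← Ideal.Quotient.algebraMap_eq, algebraMap_smul, RingHom.id_apply, algebraMap_smul, map_smul]

/-- a versal module for a class of extensions containing a universal one maps onto it -/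
theorem surj_of {T G : Type} [CommRing T] [Group G] {I : Ideal T} {a b : ℕ} (τ : G →* GL (Fin b) (T ⧸ I))
    (ρ : G →* GL (Fin a) (T ⧸ I)) (X Y : Type) [AddCommGroup X] [Module T X] [Module (T ⧸ I) X]
    [IsScalarTower T (T ⧸ I) X] [AddCommGroup Y] [Module T Y] [Module (T ⧸ I) Y] [IsScalarTower T (T ⧸ I) Y]
    (c : G → Fin a → Fin b → X) (u : G → Fin a → Fin b → Y)
    (h2 : ∀ (M : Type) [AddCommGroup M] [Module T M] [Module (T ⧸ I) M] [IsScalarTower T (T ⧸ I) M]
      (h : X →ₗ[T] M), IsCoboundary τ ρ (fun g p q => h (c g p q)) → h = 0)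
    (f : Y →ₗ[T] X) (hf : IsCoboundary τ ρ fun g p q => c g p q - f (u g p q)) :
    Fitt (T ⧸ I) Y ≤ Fitt (T ⧸ I) X := by
  obtain ⟨x, hx⟩ := hf
  refine fitt_surj (liftQ I f) ?_
  set N : Submodule (T ⧸ I) X := LinearMap.range (liftQ I f) with hN
  have h7 := h2 (X ⧸ N) ((N.mkQ).restrictScalars T)
    ⟨fun p q => N.mkQ (x p q), fun g p q => by
      have h8 := congrArg N.mkQ (hx g p q)
      have h9 : N.mkQ (f (u g p q)) = 0 := (Submodule.Quotient.mk_eq_zero N).2 ⟨u g p q, rfl⟩
      rw [map_sub, h9, sub_zero, map_sub, map_sum, map_sum] at h8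
      simp only [map_smul] at h8
      exact h8⟩
  intro y
  have h8 : N.mkQ y = 0 := LinearMap.congr_fun h7 y
  obtain ⟨z, hz⟩ := (Submodule.Quotient.mk_eq_zero N).1 h8
  exact ⟨z, hz⟩

end aux

/-- **Main theorem.** Let `T` be a complete Noetherian local ring contained in a finite product of fields `L κ`, `r κ` absolutely
irreducible representations of `G` of dimension `∑ d_i` with traces in `T` and with `ε`-symmetric forms `F κ`, and `ρ_1, …, ρ_s`
representations over `T/I` with the same trace modulo `I`, residually absolutely irreducible and pairwise different,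
`B i` a perfect pairing of `ρ_i` and `ρ_{i*}`. Let `A` be nonempty, `A ∩ A* = ∅`, and `R` a set of pairs `(i, j)`, `i ∈ A`, `j ∉ A`,
which contains `(i, j)` or `(j*, i*)` for all these pairs with `j ≠ i*`; `Y i j`, `(i, j) ∈ R`, versal modules (dual Selmer groups) for
the extensions of `ρ_j` by `ρ_i` in the class `P`, and `Z i`, `i ∈ A`, versal modules for the polarised extensions of `ρ_{i*}` by `ρ_i`
in `P`. Then the product of all the Fitting ideals is zero, at every prime ideal one of these modules is supported, and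
the characteristic ideal of the congruence module divides the product of their characteristic ideals. -/
theorem result {T G K : Type} {L : K → Type} [CommRing T] [IsLocalRing T] [IsNoetherianRing T]
    [IsAdicComplete (maximalIdeal T) T] [Group G] [Fintype K] [Nonempty K] [∀ κ, Field (L κ)] [∀ κ, Algebra T (L κ)]
    (hT : ∀ x : T, (∀ κ, algebraMap T (L κ) x = 0) → x = 0) {s : ℕ} {d : Fin s → ℕ}
    (r : ∀ κ, G →* GL (Fin (∑ i, d i)) (L κ)) (hr : ∀ κ, AbsolutelyIrreducible (r κ))
    (t : G → T) (ht : ∀ g κ, algebraMap T (L κ) (t g) = tr (r κ) g)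
    (I : Ideal T) (hI : I ≠ ⊤) (ρ : ∀ i, G →* GL (Fin (d i)) (T ⧸ I)) (hρ : ∀ i, ResiduallyIrreducible (ρ i))
    (hne : ∀ i j, i ≠ j → ResiduallyDifferent (ρ i) (ρ j)) (htr : ∀ g, Ideal.Quotient.mk I (t g) = ∑ i, tr (ρ i) g)
    (θ : G →* G) (hθ : ∀ g, θ (θ g) = g) (μ : G →* Tˣ) (ε : T) (hε : ε = 1 ∨ ε = -1)
    (F : ∀ κ, Matrix (Fin (∑ i, d i)) (Fin (∑ i, d i)) (L κ))
    (hF : ∀ κ, IsForm θ (fun g => algebraMap T (L κ) (μ g)) (algebraMap T (L κ) ε) (r κ) (F κ))
    (star : Fin s → Fin s) (hstar : ∀ i, star (star i) = i)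
    (B : ∀ i, Matrix (Fin (d i)) (Fin (d (star i))) (T ⧸ I))
    (hB : ∀ i, IsPairing θ (fun g => Ideal.Quotient.mk I (μ g)) (ρ i) (ρ (star i)) (B i))
    (P : Class T G) (hP : ContainsLattices P r) (A : Finset (Fin s)) (hA : A.Nonempty) (hA' : ∀ i ∈ A, star i ∉ A)
    (R : Finset (Fin s × Fin s)) (hR : ∀ p ∈ R, p.1 ∈ A ∧ p.2 ∉ A)
    (hR' : ∀ i ∈ A, ∀ j, j ∉ A → j ≠ star i → (i, j) ∈ R ∨ (star j, star i) ∈ R)
    (Y : Fin s → Fin s → Type) [∀ i j, AddCommGroup (Y i j)] [∀ i j, Module T (Y i j)]
    [∀ i j, Module (T ⧸ I) (Y i j)] [∀ i j, IsScalarTower T (T ⧸ I) (Y i j)] [∀ i j, Module.Finite (T ⧸ I) (Y i j)]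
    (u : ∀ i j, G → Fin (d i) → Fin (d j) → Y i j)
    (hu : ∀ p ∈ R, Versal P (ρ p.2) (ρ p.1) (Y p.1 p.2) (u p.1 p.2))
    (Z : Fin s → Type) [∀ i, AddCommGroup (Z i)] [∀ i, Module T (Z i)]
    [∀ i, Module (T ⧸ I) (Z i)] [∀ i, IsScalarTower T (T ⧸ I) (Z i)] [∀ i, Module.Finite (T ⧸ I) (Z i)]
    (w : ∀ i, G → Fin (d i) → Fin (d (star i)) → Z i)
    (hw : ∀ i ∈ A, VersalPolarised P θ (fun g => Ideal.Quotient.mk I (μ g)) (Ideal.Quotient.mk I ε) (B i) (ρ (star i))
      (ρ i) (Z i) (w i)) :
    (∏ p ∈ R, Fitt (T ⧸ I) (Y p.1 p.2)) * ∏ i ∈ A, Fitt (T ⧸ I) (Z i) = ⊥ ∧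
      (∀ (𝔮 : Ideal (T ⧸ I)) [𝔮.IsPrime], (∃ p ∈ R, Module.annihilator (T ⧸ I) (Y p.1 p.2) ≤ 𝔮) ∨
        ∃ i ∈ A, Module.annihilator (T ⧸ I) (Z i) ≤ 𝔮) ∧
      ∀ (Λ : Type) [CommRing Λ] [Algebra Λ (T ⧸ I)], Function.Surjective (algebraMap Λ (T ⧸ I)) →
        ∀ (𝔭 : Ideal Λ) [𝔭.IsPrime] [IsDomain (Localization.AtPrime 𝔭)]
          [IsDiscreteValuationRing (Localization.AtPrime 𝔭)],
          multiplicity (R := T ⧸ I) 𝔭 (T ⧸ I) ≤ ∑ p ∈ R, multiplicity (R := T ⧸ I) 𝔭 (Y p.1 p.2) +
            ∑ i ∈ A, multiplicity (R := T ⧸ I) 𝔭 (Z i) := by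
  classical
  have e : Fin (∑ i, d i) ≃ Σ i, Fin (d i) := finSigmaFinEquiv.symm
  have H : Hyp I (fun i => hom (ρ i)) (fun κ => rix e (hom (r κ))) t :=
    { inj := hT
      ne_top := hI
      pos := fun i => (hρ i).1
      span := joint_span hI (fun i => hom (ρ i)) (fun i => (hρ i).1) (fun k _ π hπ i => (hρ i).2 k π hπ)
        (fun k _ π hπ i j hij => hne i j hij k π hπ)
      irr := fun κ => rix_span e _ (hr κ).2
      tr := fun g κ => (ht g κ).trans (rix_trace e (hom (r κ)) g).symm
      tr_eq := htr }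
  have hP' : ∀ (N : Submodule T ((Σ i, Fin (d i)) → ∀ κ, L κ))
      (hs : ∀ g, ∀ v ∈ N, fam (fun κ => rix e (hom (r κ))) g *ᵥ v ∈ N), N.FG →
      P.mem N (fun g v => ⟨fam (fun κ => rix e (hom (r κ))) g *ᵥ (v : (Σ i, Fin (d i)) → ∀ κ, L κ), hs g v v.2⟩) := by
    intro N hs hN
    have hact : ∀ (g : G) (v : (Σ i, Fin (d i)) → ∀ κ, L κ),
        (fun x => (fam (fun κ => rix e (hom (r κ))) g *ᵥ v) (e x)) = act r g (fun x => v (e x)) := by
      intro g v
      funext x κ
      rw [Matrix.mulVec, dotProduct, Finset.sum_apply]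
      refine (Fintype.sum_equiv e _ _ fun y => ?_).symm
      show mat (r κ) g x y * v (e y) κ = mat (r κ) g (e.symm (e x)) (e.symm (e y)) * v (e y) κ
      rw [Equiv.symm_apply_apply, Equiv.symm_apply_apply]
    set f : ((Σ i, Fin (d i)) → ∀ κ, L κ) ≃ₗ[T] (Fin (∑ i, d i) → ∀ κ, L κ) :=
      LinearEquiv.funCongrLeft T (∀ κ, L κ) e with hf
    set N' : Submodule T (Fin (∑ i, d i) → ∀ κ, L κ) := N.map (f : _ →ₗ[T] _) with hN'
    have hs' : ∀ g, ∀ v ∈ N', act r g v ∈ N' := by
      rintro g _ ⟨w, hw, rfl⟩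
      exact ⟨_, hs g w hw, hact g w⟩
    have h1 := hP N' hs' (hN.map _)
    refine P.quot N' N _ _ ((f.submoduleMap N).symm : N' →ₗ[T] N) ?_ (f.submoduleMap N).symm.surjective h1
    intro g v
    obtain ⟨w, rfl⟩ := (f.submoduleMap N).surjective v
    refine (f.submoduleMap N).injective ?_
    show f.submoduleMap N ((f.submoduleMap N).symm _) = _
    rw [LinearEquiv.apply_symm_apply]
    refine Subtype.ext ?_
    show act r g (f w) = f (fam (fun κ => rix e (hom (r κ))) g *ᵥ
      (((f.submoduleMap N).symm (f.submoduleMap N w) : N) : (Σ i, Fin (d i)) → ∀ κ, L κ))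
    rw [LinearEquiv.symm_apply_apply]
    exact (hact g w).symm
  have hε' : ε * ε = 1 := by
    rcases hε with h | h
    · rw [h, one_mul]
    · rw [h, neg_mul_neg, one_mul]
  have hF1 : ∀ κ, IsUnit ((F κ).submatrix e.symm e.symm).det := fun κ => by
    rw [Matrix.det_submatrix_equiv_self]
    exact (hF κ).1
  have hF2 : ∀ κ, ((F κ).submatrix e.symm e.symm)ᵀ = ε • (F κ).submatrix e.symm e.symm := fun κ => by
    rw [Matrix.transpose_submatrix, (hF κ).2.1, Matrix.submatrix_smul]
    ext x y
    show algebraMap T (L κ) ε * _ = ε • _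
    rw [Algebra.smul_def]
  have hF3 : ∀ g κ, (rix e (hom (r κ)) g)ᵀ * (F κ).submatrix e.symm e.symm * rix e (hom (r κ)) (θ g) =
      (μ g : T) • (F κ).submatrix e.symm e.symm := fun g κ => by
    show ((mat (r κ) g).submatrix e.symm e.symm)ᵀ * (F κ).submatrix e.symm e.symm *
      (mat (r κ) (θ g)).submatrix e.symm e.symm = _
    rw [Matrix.transpose_submatrix, Matrix.submatrix_mul_equiv, Matrix.submatrix_mul_equiv, (hF κ).2.2,
      Matrix.submatrix_smul]
    ext x y
    show algebraMap T (L κ) (μ g) * _ = (μ g : T) • _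
    rw [Algebra.smul_def]
  choose B' hB1 hB2 using fun i => (hB i).1
  obtain ⟨X, i1, i2, i3, i4, c, h1, h2, h3, h5, h4⟩ := main t_GMA t_EXT t_MEM t_POL t_SGN t_SCH t_PROD H
    (⟨P.mem, P.quot, P.sum⟩ : Pool.Agent.H499.CF.Class T G) hP' θ hθ (fun g => (μ g : T)) (fun g => (μ g).isUnit) star
    hstar ε hε' (fun κ => (F κ).submatrix e.symm e.symm) hF1 hF2 (fun g κ => hF3 g κ) B B' hB1 hB2
    (fun i g => (hB i).2 g)
  have hfin : ∀ i j, Module.Finite T (X i j) := by
    intro i j
    have := h1 i j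
    exact Module.Finite.trans (T ⧸ I) (X i j)
  have huniv : ∀ i j, i ≠ j → ∀ (M : Type) [AddCommGroup M] [Module T M] [Module (T ⧸ I) M]
      [IsScalarTower T (T ⧸ I) M] (h : X i j →ₗ[T] M),
      IsCoboundary (ρ j) (ρ i) (fun g p q => h (c i j g p q)) → h = 0 := by
    intro i j hij M _ _ _ _ h hx
    obtain ⟨x, hx⟩ := hx
    exact (h2 i j hij M h).2 ⟨x, fun g => by
      funext p q
      exact hx g p q⟩
  have hcoc : ∀ i j, i ≠ j → IsCocycle (ρ j) (ρ i) (c i j) := by
    intro i j hij g g' p q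
    exact congrFun (congrFun ((h2 i j hij (X i j) LinearMap.id).1 g g') p) q
  have hY : ∀ p ∈ R, Fitt (T ⧸ I) (Y p.1 p.2) ≤ Fitt (T ⧸ I) (X p.1 p.2) := by
    intro p hp
    have hij : p.1 ≠ p.2 := by
      intro h
      exact (hR p hp).2 (h ▸ (hR p hp).1)
    have := hfin p.1 p.2
    obtain ⟨f, hf⟩ := hu p hp (X p.1 p.2) (c p.1 p.2) (hcoc p.1 p.2 hij) (h3 p.1 p.2 hij (X p.1 p.2) LinearMap.id)
    exact surj_of (ρ p.2) (ρ p.1) (X p.1 p.2) (Y p.1 p.2) (c p.1 p.2) (u p.1 p.2)
      (fun M _ _ _ _ h hh => huniv p.1 p.2 hij M h hh) f hf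
  have hZ : ∀ i ∈ A, Fitt (T ⧸ I) (Z i) ≤ Fitt (T ⧸ I) (X i (star i)) := by
    intro i hi
    have hij : i ≠ star i := by
      intro h
      exact hA' i hi (h ▸ hi)
    have := hfin i (star i)
    obtain ⟨f, hf⟩ := hw i hi (X i (star i)) (c i (star i)) (hcoc i (star i) hij)
      (h5 i hij (X i (star i)) LinearMap.id) (h3 i (star i) hij (X i (star i)) LinearMap.id)
    exact surj_of (ρ (star i)) (ρ i) (X i (star i)) (Z i) (c i (star i)) (w i)
      (fun M _ _ _ _ h hh => huniv i (star i) hij M h hh) f hf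
  have hprod : (∏ p ∈ R, Fitt (T ⧸ I) (Y p.1 p.2)) * ∏ i ∈ A, Fitt (T ⧸ I) (Z i) = ⊥ := by
    set S : Finset (Fin s × Fin s) := A.image fun i => (i, star i) with hS
    have h6 := h4 A (R ∪ S) hA hA' (by
      intro p hp
      rcases Finset.mem_union.1 hp with h | h
      · exact hR p h
      · obtain ⟨i, hi, rfl⟩ := Finset.mem_image.1 h
        exact ⟨hi, hA' i hi⟩) (by
      intro i hi j hj
      by_cases h : j = star i
      · refine Or.inl (Finset.mem_union_right _ ?_)
        rw [h]
        exact Finset.mem_image_of_mem (fun i => (i, star i)) hi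
      · rcases hR' i hi j hj h with h | h
        · exact Or.inl (Finset.mem_union_left _ h)
        · exact Or.inr ⟨(hR _ h).1, Finset.mem_union_left _ h⟩)
    have h7 : ∏ i ∈ A, Fitt (T ⧸ I) (X i (star i)) = ∏ p ∈ S, Fitt (T ⧸ I) (X p.1 p.2) := by
      rw [hS, Finset.prod_image]
      intro i _ j _ hij
      exact congrArg Prod.fst hij
    rw [eq_bot_iff]
    refine le_trans (mul_le_mul' (Finset.prod_le_prod' hY) (Finset.prod_le_prod' hZ)) ?_
    rw [h7, ← Finset.prod_union_inter]
    refine le_trans Ideal.mul_le_left ?_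
    exact le_of_eq h6
  refine ⟨hprod, ?_, ?_⟩
  · intro 𝔮 _
    exact supp R A (fun p => Y p.1 p.2) Z hprod 𝔮
  · intro Λ _ _ hΛ 𝔭 _ _ _
    exact loc_mult2 t_LOC (R := T ⧸ I) 𝔭 R A (fun p => Y p.1 p.2) Z hΛ hprod

end Pool.Agent.Results.MP_7c08ba_nt.PolarisedCuts
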