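import Pool.Agent.H499.CT.Adm

/-!
# Dimensions of Selmer groups are bounded below by the codimension of the endoscopic locus

Q1 predicts the dimension of `H¹_f(F, ρ_π)`. The known lower bound is one class: Bellaïche and Chenevier prove, under their
hypotheses, that `H¹_f(F, ρ_π) ≠ 0` if `ε(π) = -1`, in this way. There is a point of the eigenvariety of a unitary group in
`n + 2` variables whose Galois representation is `ρ_π ⊕ 1 ⊕ ω`; the polarised family of representations of `G_F` around it is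
generically irreducible, and reducible families give extensions of the pieces, so elements of Selmer groups; the only one
which is not excluded by the local conditions is the one of Q1. How many classes does the geometry of the family give? The
known bounds are quadratic in the dimensions, they come from the number of the equations of the locus where the family is
reducible (`h (h + 1) / 2` equations for `h` classes, for example). We show that at every point the codimension of this locus is
bounded by a LINEAR expression in the dimensions of the Selmer groups of the pieces: by their sum, every dual pair counted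
once, minus the number of the pairs of pieces `{i, i*}`, `i ≠ i*`. So the dimension of the Selmer group grows at least like the
codimension of the endoscopic (or Eisenstein) locus, not only like its square root.

Let `T` be a complete Noetherian local ring in a finite product of fields `L_κ` (a completed local ring of an eigenvariety
or of a Hecke algebra), `G` a group (`G_F`), `θ` an involution of `G` (complex conjugation), and
`r_κ : G → GL_N(L_κ)` absolutely irreducible with traces `t(g)` in `T` and polarised, `r_κ(g)ᵀ F_κ r_κ(θ g) = μ(g) F_κ`,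
`F_κᵀ = ε F_κ`. Let `𝔮` be a point of the reducibility locus (for instance the closed point, or the generic point of a
component): a prime ideal of `T` modulo which `t` is the sum of the traces of representations `ρ_1, …, ρ_s` over `T/𝔮`, of
dimensions `d_1, …, d_s`, with absolutely irreducible and pairwise non-isomorphic reductions; the duality permutes them,
`ρ_{i*}` is dual to `ρ_i`. Let `δ` be the dimension of the locus at `𝔮`: the chains of prime ideals from a prime ideal modulo which `t`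
is such a sum up to `𝔮` have length at most `δ`. Let `P` be a class of `T[G]`-modules closed under quotients and finite sums,
containing the `G`-stable lattices of `⊕ r_κ` (the local conditions). For `i ≠ j` let `g(i, j) = g(j*, i*)` be at least the rank over
`T/𝔮` of the dual of the Selmer group of `Hom(ρ_j, ρ_i) ⊗ (T/𝔮)^∨` defined by `P`, or of the one of the dual pair `(j*, i*)`, and for
`j = i*` at least the rank of the part with sign `ε` (the extensions which carry an `ε`-symmetric form).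

THEOREM. (1) If `s > 1` then `height 𝔮 ≥ 1`. (2) Every proper non-empty set `S` of pieces has a pair `i ∈ S`, `j ∉ S` with
`g(i, j) > 0`. (3) `height 𝔮 = n` is finite and
`2 (n - δ) + #{i : i* ≠ i} ≤ ∑_{i ≠ j} g(i, j) + ∑_{i* ≠ i} g(i, i*)`. (4) For three pieces `i`, `j = i*`, `l = l*`, with `h = g(i, l)`,
`h' = g(l, i)`, `z = g(i, j)`, `z' = g(j, i)`: `height 𝔮 - δ ≤ h + h' + z + z' - 1`.

For Q1: `𝔮` is the maximal ideal, `k = T/𝔮` a `p`-adic field, `i = ω`, `j = 1`, `l = ρ_π`, `g` are dimensions of Selmer groups over `k`,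
`h` is the one of the Selmer group of `Hom(ρ_π, ω) ≅ ρ_π^c`, so of the group of Q1, and `z = 0` if the local conditions kill
`H¹(F, ω)` (units of an imaginary quadratic field). Then `h ≥ 1` (`S = {i}` in (2)), and `h ≥ dim T - δ + 1 - h' - z'` by (4). If `𝔮`
is the generic point of a component of the locus then `δ = 0` and `g` are generic ranks on the component.

Idea of the proof. The `T`-span of the `r(g)` is a generalised matrix algebra `(a_ij)`, `a_ij ⊂ ∏ L_κ`, and the universal extension of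
`ρ_j` by `ρ_i` has values in `a_ij / (∑ a_il a_lj + 𝔮 a_ij)`, a quotient of the dual Selmer group (for `j = i*` of its part with sign
`ε`). So, after localisation at `𝔮`, `a_ij` is generated by the products along walks from `i` to `j` of `g(k, l)` elements of each
`a_kl` (Nakayama's lemma; long walks are in `𝔮 a_ij`), which are arcs of a directed graph on the set of pieces. The
polarisation gives isomorphisms `a_ij ≅ a_{j*i*}`, multiplication by `q_{i*} / q_j`, an involution `D` of the set `A` of the arcs. Let `E` be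
the ideal of `T` generated by the values of the closed walks; the prime ideals between `E` and `𝔮` are in the locus, as `E`
contains `a_ij a_ji` locally at `𝔮`. The value of a closed walk is a monomial in the arcs, with a balanced vector `m` of exponents (as
many arcs start as end at every piece), and up to a unit of `T` it depends only on the symmetric vector `m + m ∘ D`; every
balanced vector is a sum of short closed walks. So `E^k` is generated modulo `E^(k+1)` by monomials, whose vectors `m + m ∘ D` are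
symmetric, balanced and of size `O(k)`, and the number of all of them for `k < n` is `O(n^e)`, where `e` is the dimension of the space
of the symmetric balanced vectors. Add `δ` parameters of the locus at `𝔮` to `E`: for the ideal `E'` which they generate with `E` the number
is `O(n^(e + δ))`, `𝔮` is a minimal prime ideal over `E'`, and the Hilbert-Samuel function of `E'` at `𝔮` is `O(n^(e + δ))`, so
`height 𝔮 ≤ e + δ`. The `r_κ` are irreducible, so every piece is connected with every other one by a walk, and then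
`2 e = |A| + |{a : D a = a}| - #{i : i* ≠ i}` by linear algebra.
-/

set_option autoImplicit false

namespace Pool.Agent.Results.MP_7c08ba_nt.SelmerRankBoundsCodimension

open Matrix IsLocalRing
open Pool.Agent.H499.CF (Hyp fam rix joint_span rix_span rix_trace t_GMA t_EXT t_MEM)
open Pool.Agent.H499.CQ (t_POL t_SGN t_SCH)
open Pool.Agent.H499.CR (GenBy t_SPX t_PTH t_DUX t_RPR)
open Pool.Agent.H499.CT (main)
open Pool.Agent.H499.CS (t_GR t_DMB t_LIN t_CNT t_UN t_XT t_WK t_CRD)

/-! ### Representations -/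

section reps

variable {G A : Type} [Group G] [CommRing A] {n : ℕ}

/-- the matrix of `g` -/
def mat (ρ : G →* GL (Fin n) A) (g : G) : Matrix (Fin n) (Fin n) A := ρ g

/-- `ρ` as a homomorphism to the monoid of matrices -/
def hom (ρ : G →* GL (Fin n) A) : G →* Matrix (Fin n) (Fin n) A := (Units.coeHom _).comp ρ

/-- the trace of `g` -/
def tr (ρ : G →* GL (Fin n) A) (g : G) : A := (mat ρ g).trace

/-- a representation over a field is absolutely irreducible: the matrices span the matrix algebra (Burnside) -/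
def AbsolutelyIrreducible {k : Type} [Field k] (ρ : G →* GL (Fin n) k) : Prop :=
  0 < n ∧ Submodule.span k (Set.range (mat ρ)) = ⊤

/-- the reduction of `ρ` is absolutely irreducible, for the homomorphisms from `A` onto fields (`A` will be local) -/
def ResiduallyIrreducible (ρ : G →* GL (Fin n) A) : Prop :=
  0 < n ∧ ∀ (k : Type) [Field k] (π : A →+* k), Function.Surjective π →
    Submodule.span k (Set.range fun g => (mat ρ g).map π) = ⊤

/-- the reductions of `ρ` and `τ` have different traces -/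
def ResiduallyDifferent {m : ℕ} (ρ : G →* GL (Fin n) A) (τ : G →* GL (Fin m) A) : Prop :=
  ∀ (k : Type) [Field k] (π : A →+* k), Function.Surjective π → ∃ g, π (tr ρ g) ≠ π (tr τ g)

end reps

/-! ### Cocycles and extensions -/

section modules

variable {R : Type} [CommRing R]

variable {G : Type} [Group G] {a b : ℕ}

/-- `c` is a cocycle of `G` with values in `Hom(τ, ρ) ⊗ M`, written such that the matrices `(ρ c; 0 τ)` are a
representation: `c(gh) = ρ(g) c(h) + c(g) τ(h)` -/
def IsCocycle {M : Type} [AddCommGroup M] [Module R M] (τ : G →* GL (Fin b) R) (ρ : G →* GL (Fin a) R)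
    (c : G → Fin a → Fin b → M) : Prop :=
  ∀ g h p q, c (g * h) p q = ∑ s, mat ρ g p s • c h s q + ∑ s, mat τ h s q • c g p s

/-- `c` is a coboundary: `c(g) = ρ(g) x - x τ(g)` -/
def IsCoboundary {M : Type} [AddCommGroup M] [Module R M] (τ : G →* GL (Fin b) R) (ρ : G →* GL (Fin a) R)
    (c : G → Fin a → Fin b → M) : Prop :=
  ∃ x : Fin a → Fin b → M, ∀ g p q, c g p q = ∑ s, mat ρ g p s • x s q - ∑ s, mat τ g s q • x p s

/-- the extension `0 → ρ ⊗ M → U → τ → 0` given by the cocycle `c`: `G` acts on `M^a × R^b` by the matrices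
`(ρ c; 0 τ)` -/
def extension {M : Type} [AddCommGroup M] [Module R M] (τ : G →* GL (Fin b) R) (ρ : G →* GL (Fin a) R)
    (c : G → Fin a → Fin b → M) (g : G) (v : (Fin a → M) × (Fin b → R)) : (Fin a → M) × (Fin b → R) :=
  (fun p => ∑ s, mat ρ g p s • v.1 s + ∑ s, v.2 s • c g p s, mat τ g *ᵥ v.2)

end modules

/-- a class of `T`-modules `V` with an action `G → V → V`, closed under quotients and finite direct sums -/
structure Class (T G : Type) [CommRing T] where
  mem : ∀ (V : Type) [AddCommGroup V] [Module T V], (G → V → V) → Prop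
  quot : ∀ (V W : Type) [AddCommGroup V] [Module T V] [AddCommGroup W] [Module T W] (π : G → V → V)
    (π' : G → W → W) (f : V →ₗ[T] W), (∀ g v, f (π g v) = π' g (f v)) → Function.Surjective f →
    mem V π → mem W π'
  sum : ∀ (ι : Type) [Fintype ι] (V : ι → Type) [∀ i, AddCommGroup (V i)] [∀ i, Module T (V i)]
    (π : ∀ i, G → V i → V i), (∀ i, mem (V i) (π i)) → mem (∀ i, V i) fun g v i => π i g (v i)

section lattices

variable {T G K : Type} {L : K → Type} [CommRing T] [Group G] [∀ κ, Field (L κ)] [∀ κ, Algebra T (L κ)] {n : ℕ}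

/-- the action of `G` on `∏ (L κ) ^ n` by the representations `r κ` -/
def act (r : ∀ κ, G →* GL (Fin n) (L κ)) (g : G) (v : Fin n → ∀ κ, L κ) : Fin n → ∀ κ, L κ :=
  fun x κ => ∑ y, mat (r κ) g x y * v y κ

/-- the class `P` contains all finitely generated `G`-stable `T`-submodules of `∏ (L κ) ^ n` -/
def ContainsLattices (P : Class T G) (r : ∀ κ, G →* GL (Fin n) (L κ)) : Prop :=
  ∀ (N : Submodule T (Fin n → ∀ κ, L κ)) (hs : ∀ g, ∀ v ∈ N, act r g v ∈ N), N.FG →
    P.mem N (fun g v => ⟨act r g v, hs g v v.2⟩)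

end lattices

/-- `(Y, u)` is versal for the extensions of `τ` by `ρ ⊗ M` in the class `P`: every cocycle with values in
`Hom(τ, ρ) ⊗ M`, `M` a finitely generated `T / I`-module, whose extension is in `P`, is `h ∘ u` for some homomorphism
`h : Y → M`, up to a coboundary. So `Y` generates the dual of the Selmer group `H¹_P(G, Hom(τ, ρ) ⊗ (T/I)^∨)`. -/
def Versal {T G : Type} [CommRing T] [Group G] {I : Ideal T} {a b : ℕ} (P : Class T G) (τ : G →* GL (Fin b) (T ⧸ I))
    (ρ : G →* GL (Fin a) (T ⧸ I)) (Y : Type) [AddCommGroup Y] [Module T Y] (u : G → Fin a → Fin b → Y) : Prop :=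
  ∀ (M : Type) [AddCommGroup M] [Module T M] [Module (T ⧸ I) M] [IsScalarTower T (T ⧸ I) M] [Module.Finite T M]
    (c : G → Fin a → Fin b → M), IsCocycle τ ρ c → P.mem _ (extension τ ρ c) →
      ∃ h : Y →ₗ[T] M, IsCoboundary τ ρ fun g p q => c g p q - h (u g p q)

/-! ### Polarisations -/

section polar

variable {A G : Type} [CommRing A] [Group G] {m n : ℕ}

/-- `F` is a nondegenerate `ε`-symmetric form with `ρ(g)ᵀ F ρ(θ g) = μ(g) F` -/
def IsForm (θ : G →* G) (μ : G → A) (ε : A) (ρ : G →* GL (Fin n) A) (F : Matrix (Fin n) (Fin n) A) : Prop :=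
  IsUnit F.det ∧ Fᵀ = ε • F ∧ ∀ g, (mat ρ g)ᵀ * F * mat ρ (θ g) = μ g • F

/-- `B` is a perfect pairing between `ρ` and `τ ∘ θ` with values in `μ`: `τ ≅ μ (ρ ∘ θ)^∨` -/
def IsPairing (θ : G →* G) (μ : G → A) (ρ : G →* GL (Fin m) A) (τ : G →* GL (Fin n) A)
    (B : Matrix (Fin m) (Fin n) A) : Prop :=
  (∃ B' : Matrix (Fin n) (Fin m) A, B * B' = 1 ∧ B' * B = 1) ∧ ∀ g, (mat ρ g)ᵀ * B * mat τ (θ g) = μ g • B

/-- the extension of `τ` by `ρ ⊗ M` given by the cocycle `c` carries a form with the matrix `(0 B; ε Bᵀ x)`, `x` with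
values in `M`: `c(g)ᵀ B τ(θ g) + ε τ(g)ᵀ Bᵀ c(θ g) + τ(g)ᵀ x τ(θ g) = μ(g) x` (`ε xᵀ` satisfies the same equation) -/
def IsPolarised {M : Type} [AddCommGroup M] [Module A M] (θ : G →* G) (μ : G → A) (ε : A)
    (B : Matrix (Fin m) (Fin n) A) (τ : G →* GL (Fin n) A) (c : G → Fin m → Fin n → M) : Prop :=
  ∃ x : Fin n → Fin n → M, ∀ g p q,
    ∑ s, ∑ s', (B s s' * mat τ (θ g) s' q) • c g s p + ε • ∑ s, ∑ s', (mat τ g s' p * B s s') • c (θ g) s q +
      ∑ s, ∑ s', (mat τ g s p * mat τ (θ g) s' q) • x s s' = μ g • x p q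

/-- `(Z, w)` is versal for the polarised extensions of `τ` by `ρ ⊗ M` in the class `P` -/
def VersalPolarised {T G : Type} [CommRing T] [Group G] {I : Ideal T} {a b : ℕ} (P : Class T G) (θ : G →* G)
    (μ : G → T ⧸ I) (ε : T ⧸ I) (B : Matrix (Fin a) (Fin b) (T ⧸ I)) (τ : G →* GL (Fin b) (T ⧸ I))
    (ρ : G →* GL (Fin a) (T ⧸ I)) (Z : Type) [AddCommGroup Z] [Module T Z] (w : G → Fin a → Fin b → Z) : Prop :=
  ∀ (M : Type) [AddCommGroup M] [Module T M] [Module (T ⧸ I) M] [IsScalarTower T (T ⧸ I) M] [Module.Finite T M]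
    (c : G → Fin a → Fin b → M), IsCocycle τ ρ c → IsPolarised θ μ ε B τ c → P.mem _ (extension τ ρ c) →
      ∃ h : Z →ₗ[T] M, IsCoboundary τ ρ fun g p q => c g p q - h (w g p q)

end polar

/-! ### Components of the reducibility locus -/

/-- modulo `𝔭` the function `t` is the sum of the traces of representations of the dimensions `d_1, …, d_s` over `T / 𝔭` -/
def IsReducible {T G : Type} [CommRing T] [Group G] {s : ℕ} (d : Fin s → ℕ) (t : G → T) (𝔭 : Ideal T) : Prop :=
  ∃ ρ : ∀ i, G →* GL (Fin (d i)) (T ⧸ 𝔭), ∀ g, Ideal.Quotient.mk 𝔭 (t g) = ∑ i, tr (ρ i) g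

/-- the dimension at `𝔮` of the locus where the family is reducible is at most `δ`: every chain of prime ideals
`𝔭_0 < 𝔭_1 < … < 𝔭_r = 𝔮` such that `t` is reducible modulo `𝔭_0` has length `r ≤ δ` -/
def LocusDimLE {T G : Type} [CommRing T] [Group G] {s : ℕ} (d : Fin s → ℕ) (t : G → T) (𝔮 : Ideal T) (δ : ℕ) : Prop :=
  ∀ p : LTSeries (PrimeSpectrum T), p.last.asIdeal = 𝔮 → IsReducible d t p.head.asIdeal → p.length ≤ δ

/-! ### Auxiliary statements -/

section aux

/-- a homomorphism of `T`-modules between `T / I`-modules is one of `T / I`-modules -/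
def liftQ {T X Y : Type} [CommRing T] (I : Ideal T) [AddCommGroup X] [Module T X] [Module (T ⧸ I) X]
    [IsScalarTower T (T ⧸ I) X] [AddCommGroup Y] [Module T Y] [Module (T ⧸ I) Y] [IsScalarTower T (T ⧸ I) Y]
    (f : Y →ₗ[T] X) : Y →ₗ[T ⧸ I] X where
  toFun := f
  map_add' := f.map_add
  map_smul' a y := by
    obtain ⟨b, rfl⟩ := Ideal.Quotient.mk_surjective a
    rw [← Ideal.Quotient.algebraMap_eq, algebraMap_smul, RingHom.id_apply, algebraMap_smul, map_smul]

/-- a versal module of rank at most `n` for a class of extensions containing a universal one -/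
theorem gen_of {T G : Type} [CommRing T] [Group G] {I : Ideal T} [I.IsPrime] {a b : ℕ} (τ : G →* GL (Fin b) (T ⧸ I))
    (ρ : G →* GL (Fin a) (T ⧸ I)) (X Y : Type) [AddCommGroup X] [Module T X] [Module (T ⧸ I) X]
    [IsScalarTower T (T ⧸ I) X] [AddCommGroup Y] [Module T Y] [Module (T ⧸ I) Y] [IsScalarTower T (T ⧸ I) Y]
    [Module.Finite (T ⧸ I) Y] (c : G → Fin a → Fin b → X) (u : G → Fin a → Fin b → Y)
    (h2 : ∀ (M : Type) [AddCommGroup M] [Module T M] [Module (T ⧸ I) M] [IsScalarTower T (T ⧸ I) M]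
      (h : X →ₗ[T] M), IsCoboundary τ ρ (fun g p q => h (c g p q)) → h = 0)
    (f : Y →ₗ[T] X) (hf : IsCoboundary τ ρ fun g p q => c g p q - f (u g p q)) (n : ℕ)
    (hn : Module.finrank (T ⧸ I) Y ≤ n) : GenBy I (⊥ : Submodule T X) n := by
  obtain ⟨x, hx⟩ := hf
  have hsurj : Function.Surjective (liftQ I f) := by
    set N : Submodule (T ⧸ I) X := LinearMap.range (liftQ I f) with hN
    have h7 := h2 (X ⧸ N) ((N.mkQ).restrictScalars T)
      ⟨fun p q => N.mkQ (x p q), fun g p q => by
        have h8 := congrArg N.mkQ (hx g p q)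
        have h9 : N.mkQ (f (u g p q)) = 0 := (Submodule.Quotient.mk_eq_zero N).2 ⟨u g p q, rfl⟩
        rw [map_sub, h9, sub_zero, map_sub, map_sum, map_sum] at h8
        simp only [map_smul] at h8
        exact h8⟩
    intro y
    have h8 : N.mkQ y = 0 := LinearMap.congr_fun h7 y
    obtain ⟨z, hz⟩ := (Submodule.Quotient.mk_eq_zero N).1 h8
    exact ⟨z, hz⟩
  obtain ⟨y, s, hs, hy⟩ := t_SPX (T ⧸ I) Y
  obtain ⟨s', rfl⟩ := Ideal.Quotient.mk_surjective s
  refine ⟨fun p => if h : (p : ℕ) < Module.finrank (T ⧸ I) Y then liftQ I f (y ⟨p, h⟩) else 0, s', ?_, ?_⟩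
  · intro h
    exact hs (Ideal.Quotient.eq_zero_iff_mem.2 h)
  · intro z
    obtain ⟨w, rfl⟩ := hsurj z
    rw [sup_bot_eq]
    have h3 : ∀ v ∈ Submodule.span (T ⧸ I) (Set.range y), liftQ I f v ∈ Submodule.span T (Set.range
        fun p : Fin n => if h : (p : ℕ) < Module.finrank (T ⧸ I) Y then liftQ I f (y ⟨p, h⟩) else 0) := by
      intro v hv
      refine Submodule.span_induction ?_ ?_ ?_ ?_ hv
      · rintro _ ⟨p, rfl⟩
        refine Submodule.subset_span ⟨⟨p, lt_of_lt_of_le p.2 hn⟩, ?_⟩
        exact dif_pos p.2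
      · rw [map_zero]
        exact Submodule.zero_mem _
      · intro v w _ _ h4 h5
        rw [map_add]
        exact Submodule.add_mem _ h4 h5
      · intro r v _ h4
        obtain ⟨r', rfl⟩ := Ideal.Quotient.mk_surjective r
        rw [map_smul, ← Ideal.Quotient.algebraMap_eq, algebraMap_smul]
        exact Submodule.smul_mem _ _ h4
    have h4 := h3 _ (hy w)
    rw [map_smul, ← Ideal.Quotient.algebraMap_eq, algebraMap_smul] at h4
    exact h4

end aux

/-- **Main theorem.** Let `T` be a complete Noetherian local ring contained in a finite product of fields `L κ`, `r κ` absolutely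
irreducible representations of `G` of dimension `∑ d_i` with traces in `T` and with `ε`-symmetric forms `F κ`; `𝔮` a prime
ideal of `T`, at which the locus where the trace is the sum of the traces of representations of dimensions `d_i` has
dimension at most `δ`; `ρ_1, …, ρ_s` such representations over `T/𝔮`, residually absolutely irreducible and pairwise
different, `B i` a perfect pairing of `ρ_i` and `ρ_{i*}`. Let `g` be numbers with `g(j*, i*) = g(i, j)`, and `R` a set of pairs containing
`(i, j)` or `(j*, i*)` if `i ≠ j`, `j ≠ i*`; `Y i j`, `(i, j) ∈ R`, versal modules (dual Selmer groups) of rank at most `g(i, j)` for the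
extensions of `ρ_j` by `ρ_i` in the class `P`, and `Z i`, `i ≠ i*`, versal modules of rank at most `g(i, i*)` for the polarised extensions of
`ρ_{i*}` by `ρ_i` in `P`. Then `height 𝔮 ≥ 1` if `s > 1`, every proper non-empty set `S` of pieces has a pair `i ∈ S`, `j ∉ S` with
`g(i, j) > 0`, `2 (height 𝔮) + #{i : i* ≠ i} ≤ 2 δ + ∑_{i ≠ j} g(i, j) + ∑_{i* ≠ i} g(i, i*)`, and for three pieces
`height 𝔮 + 1 ≤ δ + g(i, l) + g(l, i) + g(i, j) + g(j, i)`. -/
theorem result {T G K : Type} {L : K → Type} [CommRing T] [IsLocalRing T] [IsNoetherianRing T]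
    [IsAdicComplete (maximalIdeal T) T] [Group G] [Fintype K] [∀ κ, Field (L κ)] [∀ κ, Algebra T (L κ)]
    (hT : ∀ x : T, (∀ κ, algebraMap T (L κ) x = 0) → x = 0) {s : ℕ} {d : Fin s → ℕ}
    (r : ∀ κ, G →* GL (Fin (∑ i, d i)) (L κ)) (hr : ∀ κ, AbsolutelyIrreducible (r κ))
    (t : G → T) (ht : ∀ g κ, algebraMap T (L κ) (t g) = tr (r κ) g)
    (𝔮 : Ideal T) [𝔮.IsPrime] (δ : ℕ) (hδ : LocusDimLE d t 𝔮 δ)
    (ρ : ∀ i, G →* GL (Fin (d i)) (T ⧸ 𝔮)) (hρ : ∀ i, ResiduallyIrreducible (ρ i))
    (hne : ∀ i j, i ≠ j → ResiduallyDifferent (ρ i) (ρ j)) (htr : ∀ g, Ideal.Quotient.mk 𝔮 (t g) = ∑ i, tr (ρ i) g)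
    (θ : G →* G) (hθ : ∀ g, θ (θ g) = g) (μ : G →* Tˣ) (ε : T) (hε : ε = 1 ∨ ε = -1)
    (F : ∀ κ, Matrix (Fin (∑ i, d i)) (Fin (∑ i, d i)) (L κ))
    (hF : ∀ κ, IsForm θ (fun g => algebraMap T (L κ) (μ g)) (algebraMap T (L κ) ε) (r κ) (F κ))
    (star : Equiv.Perm (Fin s)) (hstar : ∀ i, star (star i) = i)
    (B : ∀ i, Matrix (Fin (d i)) (Fin (d (star i))) (T ⧸ 𝔮))
    (hB : ∀ i, IsPairing θ (fun g => Ideal.Quotient.mk 𝔮 (μ g)) (ρ i) (ρ (star i)) (B i))
    (P : Class T G) (hP : ContainsLattices P r) (g : Fin s → Fin s → ℕ) (hg : ∀ i j, g (star j) (star i) = g i j)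
    (R : Finset (Fin s × Fin s)) (hR : ∀ p ∈ R, p.1 ≠ p.2)
    (hR' : ∀ i j, i ≠ j → j ≠ star i → (i, j) ∈ R ∨ (star j, star i) ∈ R)
    (Y : Fin s → Fin s → Type) [∀ i j, AddCommGroup (Y i j)] [∀ i j, Module T (Y i j)]
    [∀ i j, Module (T ⧸ 𝔮) (Y i j)] [∀ i j, IsScalarTower T (T ⧸ 𝔮) (Y i j)] [∀ i j, Module.Finite (T ⧸ 𝔮) (Y i j)]
    (u : ∀ i j, G → Fin (d i) → Fin (d j) → Y i j)
    (hu : ∀ p ∈ R, Versal P (ρ p.2) (ρ p.1) (Y p.1 p.2) (u p.1 p.2))
    (hY : ∀ p ∈ R, Module.finrank (T ⧸ 𝔮) (Y p.1 p.2) ≤ g p.1 p.2)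
    (Z : Fin s → Type) [∀ i, AddCommGroup (Z i)] [∀ i, Module T (Z i)]
    [∀ i, Module (T ⧸ 𝔮) (Z i)] [∀ i, IsScalarTower T (T ⧸ 𝔮) (Z i)] [∀ i, Module.Finite (T ⧸ 𝔮) (Z i)]
    (w : ∀ i, G → Fin (d i) → Fin (d (star i)) → Z i)
    (hw : ∀ i, i ≠ star i → VersalPolarised P θ (fun g => Ideal.Quotient.mk 𝔮 (μ g)) (Ideal.Quotient.mk 𝔮 ε) (B i)
      (ρ (star i)) (ρ i) (Z i) (w i))
    (hZ : ∀ i, i ≠ star i → Module.finrank (T ⧸ 𝔮) (Z i) ≤ g i (star i)) :
    (1 < s → 1 ≤ 𝔮.height) ∧
      (∀ S : Finset (Fin s), S.Nonempty → S ≠ Finset.univ → ∃ i ∈ S, ∃ j, j ∉ S ∧ 0 < g i j) ∧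
      (∃ n : ℕ, 𝔮.height = n ∧ 2 * n + (Finset.univ.filter fun i => star i ≠ i).card ≤ 2 * δ +
        (∑ i, ∑ j, (if i = j then 0 else g i j) + ∑ i, (if star i = i then 0 else g i (star i)))) ∧
      ∀ i j l : Fin s, i ≠ j → i ≠ l → j ≠ l → (∀ x, x = i ∨ x = j ∨ x = l) → star i = j → star l = l →
        𝔮.height + 1 ≤ (δ + (g i l + g l i + g i j + g j i) : ℕ) := by
  classical
  have hI : 𝔮 ≠ ⊤ := Ideal.IsPrime.ne_top'
  have e : Fin (∑ i, d i) ≃ Σ i, Fin (d i) := finSigmaFinEquiv.symm
  have H : Hyp 𝔮 (fun i => hom (ρ i)) (fun κ => rix e (hom (r κ))) t :=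
    { inj := hT
      ne_top := hI
      pos := fun i => (hρ i).1
      span := joint_span hI (fun i => hom (ρ i)) (fun i => (hρ i).1) (fun k _ π hπ i => (hρ i).2 k π hπ)
        (fun k _ π hπ i j hij => hne i j hij k π hπ)
      irr := fun κ => rix_span e _ (hr κ).2
      tr := fun g κ => (ht g κ).trans (rix_trace e (hom (r κ)) g).symm
      tr_eq := htr }
  have hP' : ∀ (N : Submodule T ((Σ i, Fin (d i)) → ∀ κ, L κ))
      (hs : ∀ g, ∀ v ∈ N, fam (fun κ => rix e (hom (r κ))) g *ᵥ v ∈ N), N.FG →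
      P.mem N (fun g v => ⟨fam (fun κ => rix e (hom (r κ))) g *ᵥ (v : (Σ i, Fin (d i)) → ∀ κ, L κ), hs g v v.2⟩) := by
    intro N hs hN
    have hact : ∀ (g : G) (v : (Σ i, Fin (d i)) → ∀ κ, L κ),
        (fun x => (fam (fun κ => rix e (hom (r κ))) g *ᵥ v) (e x)) = act r g (fun x => v (e x)) := by
      intro g v
      funext x κ
      rw [Matrix.mulVec, dotProduct, Finset.sum_apply]
      refine (Fintype.sum_equiv e _ _ fun y => ?_).symm
      show mat (r κ) g x y * v (e y) κ = mat (r κ) g (e.symm (e x)) (e.symm (e y)) * v (e y) κ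
      rw [Equiv.symm_apply_apply, Equiv.symm_apply_apply]
    set f : ((Σ i, Fin (d i)) → ∀ κ, L κ) ≃ₗ[T] (Fin (∑ i, d i) → ∀ κ, L κ) :=
      LinearEquiv.funCongrLeft T (∀ κ, L κ) e with hf
    set N' : Submodule T (Fin (∑ i, d i) → ∀ κ, L κ) := N.map (f : _ →ₗ[T] _) with hN'
    have hs' : ∀ g, ∀ v ∈ N', act r g v ∈ N' := by
      rintro g _ ⟨w, hw, rfl⟩
      exact ⟨_, hs g w hw, hact g w⟩
    have h1 := hP N' hs' (hN.map _)
    refine P.quot N' N _ _ ((f.submoduleMap N).symm : N' →ₗ[T] N) ?_ (f.submoduleMap N).symm.surjective h1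
    intro g v
    obtain ⟨w, rfl⟩ := (f.submoduleMap N).surjective v
    refine (f.submoduleMap N).injective ?_
    show f.submoduleMap N ((f.submoduleMap N).symm _) = _
    rw [LinearEquiv.apply_symm_apply]
    refine Subtype.ext ?_
    show act r g (f w) = f (fam (fun κ => rix e (hom (r κ))) g *ᵥ
      (((f.submoduleMap N).symm (f.submoduleMap N w) : N) : (Σ i, Fin (d i)) → ∀ κ, L κ))
    rw [LinearEquiv.symm_apply_apply]
    exact (hact g w).symm
  have hε' : ε * ε = 1 := by
    rcases hε with h | h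
    · rw [h, one_mul]
    · rw [h, neg_mul_neg, one_mul]
  have hF1 : ∀ κ, IsUnit ((F κ).submatrix e.symm e.symm).det := fun κ => by
    rw [Matrix.det_submatrix_equiv_self]
    exact (hF κ).1
  have hF2 : ∀ κ, ((F κ).submatrix e.symm e.symm)ᵀ = ε • (F κ).submatrix e.symm e.symm := fun κ => by
    rw [Matrix.transpose_submatrix, (hF κ).2.1, Matrix.submatrix_smul]
    ext x y
    show algebraMap T (L κ) ε * _ = ε • _
    rw [Algebra.smul_def]
  have hF3 : ∀ g κ, (rix e (hom (r κ)) g)ᵀ * (F κ).submatrix e.symm e.symm * rix e (hom (r κ)) (θ g) =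
      (μ g : T) • (F κ).submatrix e.symm e.symm := fun g κ => by
    show ((mat (r κ) g).submatrix e.symm e.symm)ᵀ * (F κ).submatrix e.symm e.symm *
      (mat (r κ) (θ g)).submatrix e.symm e.symm = _
    rw [Matrix.transpose_submatrix, Matrix.submatrix_mul_equiv, Matrix.submatrix_mul_equiv, (hF κ).2.2,
      Matrix.submatrix_smul]
    ext x y
    show algebraMap T (L κ) (μ g) * _ = (μ g : T) • _
    rw [Algebra.smul_def]
  choose B' hB1 hB2 using fun i => (hB i).1
  obtain ⟨X, i1, i2, i3, i4, c, h1, h2, h3, h5, h4, h6⟩ := main t_GMA t_EXT t_MEM t_POL t_SGN t_SCH t_PTH t_DUX t_RPR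
    t_GR t_DMB t_LIN t_CNT t_UN t_XT t_WK t_CRD H
    (⟨P.mem, P.quot, P.sum⟩ : Pool.Agent.H499.CF.Class T G) hP' θ hθ (fun g => (μ g : T)) (fun g => (μ g).isUnit) star
    hstar ε hε' (fun κ => (F κ).submatrix e.symm e.symm) hF1 hF2 (fun g κ => hF3 g κ) B B' hB1 hB2
    (fun i g => (hB i).2 g)
  have hfin : ∀ i j, Module.Finite T (X i j) := by
    intro i j
    have := h1 i j
    exact Module.Finite.trans (T ⧸ 𝔮) (X i j)
  have huniv : ∀ i j, i ≠ j → ∀ (M : Type) [AddCommGroup M] [Module T M] [Module (T ⧸ 𝔮) M]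
      [IsScalarTower T (T ⧸ 𝔮) M] (h : X i j →ₗ[T] M),
      IsCoboundary (ρ j) (ρ i) (fun g p q => h (c i j g p q)) → h = 0 := by
    intro i j hij M _ _ _ _ h hx
    obtain ⟨x, hx⟩ := hx
    exact (h2 i j hij M h).2 ⟨x, fun g => by
      funext p q
      exact hx g p q⟩
  have hcoc : ∀ i j, i ≠ j → IsCocycle (ρ j) (ρ i) (c i j) := by
    intro i j hij g g' p q
    exact congrFun (congrFun ((h2 i j hij (X i j) LinearMap.id).1 g g') p) q
  have hYX : ∀ p ∈ R, GenBy 𝔮 (⊥ : Submodule T (X p.1 p.2)) (g p.1 p.2) := by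
    intro p hp
    have hij := hR p hp
    have := hfin p.1 p.2
    obtain ⟨f, hf⟩ := hu p hp (X p.1 p.2) (c p.1 p.2) (hcoc p.1 p.2 hij) (h3 p.1 p.2 hij (X p.1 p.2) LinearMap.id)
    exact gen_of (ρ p.2) (ρ p.1) (X p.1 p.2) (Y p.1 p.2) (c p.1 p.2) (u p.1 p.2)
      (fun M _ _ _ _ h hh => huniv p.1 p.2 hij M h hh) f hf _ (hY p hp)
  have hZX : ∀ i, i ≠ star i → GenBy 𝔮 (⊥ : Submodule T (X i (star i))) (g i (star i)) := by
    intro i hij
    have := hfin i (star i)
    obtain ⟨f, hf⟩ := hw i hij (X i (star i)) (c i (star i)) (hcoc i (star i) hij)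
      (h5 i hij (X i (star i)) LinearMap.id) (h3 i (star i) hij (X i (star i)) LinearMap.id)
    exact gen_of (ρ (star i)) (ρ i) (X i (star i)) (Z i) (c i (star i)) (w i)
      (fun M _ _ _ _ h hh => huniv i (star i) hij M h hh) f hf _ (hZ i hij)
  have hX : ∀ i j, i ≠ j → GenBy 𝔮 (⊥ : Submodule T (X i j)) (g i j) ∨
      GenBy 𝔮 (⊥ : Submodule T (X (star j) (star i))) (g i j) := by
    intro i j hij
    by_cases h : j = star i
    · subst h
      exact Or.inl (hZX i hij)
    · rcases hR' i j hij h with h | h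
      · exact Or.inl (hYX _ h)
      · have h7 := hYX _ h
        rw [hg i j] at h7
        exact Or.inr h7
  have hmin : ∀ p : LTSeries (PrimeSpectrum T), p.last.asIdeal = 𝔮 →
      (∃ ρ' : ∀ i, G →* Matrix (Fin (d i)) (Fin (d i)) (T ⧸ p.head.asIdeal),
        ∀ g, Ideal.Quotient.mk p.head.asIdeal (t g) = ∑ i, (ρ' i g).trace) → p.length ≤ δ := by
    rintro p hp ⟨ρ', hρ'⟩
    refine hδ p hp ⟨fun i => MonoidHom.toHomUnits (ρ' i), fun g => ?_⟩
    rw [hρ' g]
    rfl
  obtain ⟨⟨n, hn, hb⟩, hcut⟩ := h4 g hg hX δ hmin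
  refine ⟨fun hs => h6 ⟨0, by omega⟩ ⟨1, hs⟩ (by
    intro h
    exact absurd (congrArg Fin.val h) Nat.zero_ne_one), hcut, ⟨n, hn, hb⟩, ?_⟩
  intro i j l hij hil hjl hall hsi hsl
  have hsj : star j = i := by
    rw [← hsi, hstar]
  have huniv' : (Finset.univ : Finset (Fin s)) = {i, j, l} := by
    ext x
    rw [Finset.mem_insert, Finset.mem_insert, Finset.mem_singleton]
    exact ⟨fun _ => hall x, fun _ => Finset.mem_univ x⟩
  have hsum : ∀ f : Fin s → ℕ, ∑ x, f x = f i + f j + f l := by
    intro f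
    rw [huniv', Finset.sum_insert, Finset.sum_pair hjl, add_assoc]
    rw [Finset.mem_insert, Finset.mem_singleton]
    rintro (h | h)
    · exact hij h
    · exact hil h
  have hcard : (Finset.univ.filter fun i => star i ≠ i).card = 2 := by
    rw [Finset.card_filter, hsum, hsi, hsj, hsl, if_pos (Ne.symm hij), if_pos hij, if_neg (fun h => h rfl)]
  have e1 : g l j = g i l := by
    have h7 := hg i l
    rw [hsi, hsl] at h7
    exact h7
  have e2 : g j l = g l i := by
    have h7 := hg l i
    rw [hsi, hsl] at h7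
    exact h7
  rw [hcard, hsum, hsum, hsum, hsum, hsum, hsi, hsj, hsl, if_pos rfl, if_pos rfl, if_pos rfl, if_neg hij, if_neg hil,
    if_neg (Ne.symm hij), if_neg hjl, if_neg (Ne.symm hil), if_neg (Ne.symm hjl), if_neg (Ne.symm hij), if_neg hij,
    e1, e2] at hb
  rw [hn]
  have h7 : n + 1 ≤ δ + (g i l + g l i + g i j + g j i) := by omega
  exact_mod_cast h7

end Pool.Agent.Results.MP_7c08ba_nt.SelmerRankBoundsCodimension
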