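import Pool.Agent.H499.SM.FinE

/-!
# Selmer groups do not grow under congruences modulo high powers of `p` at most primes

Let `K` be a number field (imaginary quadratic in Q1), `p` a prime number (called `ℓ` below), `k` the algebraic
closure of `ℚ_p`, `S` a finite set of finite places of `K`, and `ρ : G_K → GL_n(k)` a continuous IRREDUCIBLE
representation, unramified outside `S`. For a finite family `D = (D_1, ..., D_r)` of subgroups of `G_K` let
`Sel_D(ρ)` be the space of the classes in the continuous cohomology `H¹(G_K, ρ)` which are unramified outside `S` and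
have restriction zero to all `D_i`: the classes of the extensions `0 → ρ → U → 1 → 0` for which
`U^{D_i} → 1` is surjective. For the inertia group `D_i = I_v` of a place `v ∤ p` this is the condition of Q1.
For a place `v | p` and `D_i = G_{K_v}` it is the condition of Q1 if `D_dR(ρ_v) = Fil⁰ D_dR(ρ_v)` and
`D_cris(ρ_v)^{φ = 1} = 0` (`H¹_f(K_v, ρ) = 0`), and if `Fil⁰ D_dR(ρ_v) = 0` and `D_cris(ρ_v^*(1))^{φ = 1} = 0` the
condition of Q1 at `v` is empty. So if `p` splits in `K` and the Hodge-Tate weights of `ρ_π` at the two places above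
`p` are separated by zero, `H¹_f(K, ρ_π)` is the space `Sel_D(ρ_π)` for the inertia groups of the bad places
prime to `p` and the decomposition group of one place above `p`.

1. `Sel_D(ρ)` is finite dimensional.
2. There is `m`, depending on `ρ` and `D`, such that for ALL continuous `ρ' : G_K → GL_n(k)` which are
   unramified outside `S`, with coefficients in any finite extension of `ℚ_p`, whose Frobenius traces are congruent
   modulo `p^m` to those of `ρ` at all places outside a set of upper density less than `1/(2n²)`, and with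
   `dim (ρ')^{D_i} ≥ dim ρ^{D_i}` for all `i`, we have `dim Sel_D(ρ') ≤ dim Sel_D(ρ)`.
3. Let `U` be an open subgroup of `G_K`. There is a FINITE set `P` of places outside `S`, depending only on
   `K, p, n, S, U`, and not on `ρ`, `D`, `m` or the weights, such that for representations which are residually
   unipotent on `U` the congruence modulo `p^m` at the places of `P` suffices in 2.

In particular let `ρ = ρ_{π,ι}` for a `π` as in Q1 and let `π_1, π_2, ...` be as in Q1, of any weights and unramified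
outside `S`, with the Satake traces at most primes (or at the places of `P`) converging to those of `π`, with the
separated weights above and equal dimensions of the inertia invariants at the bad places. If `dim H¹_f(K, ρ_{π_m}) ≥ r`
for infinitely many `m`, then `dim H¹_f(K, ρ_π) ≥ r`. So the lower bound (and the sign statement, `r = 1`) of the
conjecture for `π` follows from the lower bound for the `π_m`, and the vanishing of `H¹_f` holds for all `π'` near `π`
if it holds for `π`. Nothing is assumed on the residual representation, which can for example be trivial, the `ρ'` do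
not vary in a family, and there is no bound for their fields of coefficients.

Known are semicontinuity theorems in analytic families (Bellaiche, Pottharst) and for lattices with congruent
residual representations. The hypothesis `dim (ρ')^{D_i} ≥ dim ρ^{D_i}` is the usual one; it says that the local
invariants do not drop.

Idea of the proof. The traces are congruent everywhere. For an irreducible `ρ` the matrices `ρ(g)` generate the matrix
algebra, and near traces imply that a lattice model of `ρ'` is conjugate by a matrix of bounded norm and bounded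
inverse to a representation which is near to `ρ` as a matrix valued function. Take a basis of `Sel_D(ρ')` over a large
finite extension `L'` of the field `L` of `ρ` which is orthonormal modulo the coboundaries. The coordinates of the
cocycles with respect to an orthogonal basis of `L'/L` are approximate cocycles for `ρ` over `L`, with bounds which do
not depend on `L'`. A compactness argument (the group of `S` has finitely many open subgroups of each index)
shows that approximate cocycles are near to cocycles; here `dim (ρ')^{D_i} ≥ dim ρ^{D_i}` is used to bound the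
vectors `x` which trivialise the cocycles on the `D_i`. So the space of classes of `ρ'` is near to a space of classes
over `L'` of `ρ` of the same dimension.
-/

set_option autoImplicit false

namespace Pool.Agent.Results.MP_7c08ba_nt.SelmerSemicontinuity

open Matrix Module NumberField IsDedekindDomain
open Pool.Agent.W401.Cheb (GK IsFrob IsInert)
open Pool.Agent.H499.CM Pool.Agent.H499.SM
open Pool.Agent.H499.PW (AdmAdic exists_P isometry)

/-- representations of the absolute Galois group over the algebraic closure of `ℚ_ℓ` -/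
abbrev Rep (K : Type) [Field K] [NumberField K] (ℓ : ℕ) [Fact ℓ.Prime] (n : ℕ) : Type :=
  GK K →* GL (Fin n) (PadicAlgCl ℓ)

section

variable {K : Type} [Field K] [NumberField K] {ℓ : ℕ} [Fact ℓ.Prime] {n : ℕ}

/-- the action of `σ` on a vector -/
noncomputable def act (ρ : Rep K ℓ n) (σ : GK K) (x : Fin n → PadicAlgCl ℓ) : Fin n → PadicAlgCl ℓ :=
  (ρ σ : Matrix (Fin n) (Fin n) (PadicAlgCl ℓ)) *ᵥ x

/-- the trace -/
noncomputable def tr (ρ : Rep K ℓ n) (σ : GK K) : PadicAlgCl ℓ := (ρ σ : Matrix (Fin n) (Fin n) (PadicAlgCl ℓ)).trace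

/-- `ρ` is continuous and unramified outside `S` -/
def Unramified (S : Set (HeightOneSpectrum (𝓞 K))) (ρ : Rep K ℓ n) : Prop :=
  Continuous ρ ∧ ∀ v ∉ S, ∀ σ, IsInert v σ → ρ σ = 1

/-- `ρ` is irreducible -/
def Irreducible (ρ : Rep K ℓ n) : Prop :=
  0 < n ∧ ∀ W : Submodule (PadicAlgCl ℓ) (Fin n → PadicAlgCl ℓ), (∀ σ, ∀ w ∈ W, act ρ σ w ∈ W) → W = ⊥ ∨ W = ⊤

/-- the invariants of a subgroup -/
def Invariants (ρ : Rep K ℓ n) (D : Subgroup (GK K)) : Submodule (PadicAlgCl ℓ) (Fin n → PadicAlgCl ℓ) where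
  carrier := {x | ∀ d ∈ D, act ρ d x = x}
  add_mem' := (invM (mt ρ) D).add_mem'
  zero_mem' := (invM (mt ρ) D).zero_mem'
  smul_mem' := (invM (mt ρ) D).smul_mem'

/-- the continuous cocycles which are zero on the inertia groups outside `S` and are coboundaries on the `D i` -/
def Cocycles (S : Set (HeightOneSpectrum (𝓞 K))) (ρ : Rep K ℓ n) {r : ℕ} (D : Fin r → Subgroup (GK K)) :
    Submodule (PadicAlgCl ℓ) (GK K → Fin n → PadicAlgCl ℓ) where
  carrier := {c | Continuous c ∧ (∀ σ τ, c (σ * τ) = c σ + act ρ σ (c τ)) ∧ (∀ v ∉ S, ∀ σ, IsInert v σ → c σ = 0) ∧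
    ∀ i, ∃ x : Fin n → PadicAlgCl ℓ, ∀ d ∈ D i, c d = act ρ d x - x}
  add_mem' := by
    rintro c c' ⟨h1, h2, h3, h4⟩ ⟨h1', h2', h3', h4'⟩
    have h := (CocM (mt ρ) (Inr S) fun i => (D i : Set (GK K))).add_mem'
      (a := c) (b := c') ⟨h1, h2, fun σ ⟨v, hv, hσ⟩ => h3 v hv σ hσ, h4⟩
      ⟨h1', h2', fun σ ⟨v, hv, hσ⟩ => h3' v hv σ hσ, h4'⟩
    exact ⟨h.1, h.2.1, fun v hv σ hσ => h.2.2.1 σ ⟨v, hv, hσ⟩, h.2.2.2⟩
  zero_mem' := by
    have h := (CocM (mt ρ) (Inr S) fun i => (D i : Set (GK K))).zero_mem'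
    exact ⟨h.1, h.2.1, fun v hv σ hσ => h.2.2.1 σ ⟨v, hv, hσ⟩, h.2.2.2⟩
  smul_mem' := by
    rintro a c ⟨h1, h2, h3, h4⟩
    have h := (CocM (mt ρ) (Inr S) fun i => (D i : Set (GK K))).smul_mem' a
      (x := c) ⟨h1, h2, fun σ ⟨v, hv, hσ⟩ => h3 v hv σ hσ, h4⟩
    exact ⟨h.1, h.2.1, fun v hv σ hσ => h.2.2.1 σ ⟨v, hv, hσ⟩, h.2.2.2⟩

/-- the coboundaries -/
def Coboundaries (ρ : Rep K ℓ n) : Submodule (PadicAlgCl ℓ) (GK K → Fin n → PadicAlgCl ℓ) where
  carrier := {c | ∃ x : Fin n → PadicAlgCl ℓ, ∀ σ, c σ = act ρ σ x - x}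
  add_mem' := by
    rintro c c' ⟨x, hx⟩ ⟨x', hx'⟩
    obtain h := (cob (mt ρ)).map_add x x'
    exact ⟨x + x', fun σ => by
      have h2 := congrFun h σ
      rw [Pi.add_apply, hx, hx']
      exact h2.symm⟩
  zero_mem' := ⟨0, fun σ => (congrFun (map_zero (cob (mt ρ))) σ).symm⟩
  smul_mem' := by
    rintro a c ⟨x, hx⟩
    exact ⟨a • x, fun σ => by
      have h2 := congrFun (map_smul (cob (mt ρ)) a x) σ
      rw [Pi.smul_apply, hx]
      exact h2.symm⟩

/-- The Selmer group: the classes in the continuous cohomology `H¹(K, ρ)` which are unramified outside `S` and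
zero on all the subgroups `D i`. -/
abbrev Selmer (S : Set (HeightOneSpectrum (𝓞 K))) (ρ : Rep K ℓ n) {r : ℕ} (D : Fin r → Subgroup (GK K)) : Type :=
  Cocycles S ρ D ⧸ (Coboundaries ρ).submoduleOf (Cocycles S ρ D)

/-- the traces at the geometric Frobenius elements of `v` are congruent modulo `ℓ ^ m` -/
def CongruentAt (m : ℕ) (ρ ρ' : Rep K ℓ n) (v : HeightOneSpectrum (𝓞 K)) : Prop :=
  ∀ σ, IsFrob v σ → ‖tr ρ σ⁻¹ - tr ρ' σ⁻¹‖ ≤ ‖(ℓ : PadicAlgCl ℓ)‖ ^ m

/-- the set of the places `v` outside `S` where the traces are not congruent modulo `ℓ ^ m` has upper density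
less than `1 / (2 n ^ 2)` -/
def CongruentMostly (S : Set (HeightOneSpectrum (𝓞 K))) (m : ℕ) (ρ ρ' : Rep K ℓ n) : Prop :=
  ∃ δ : ℝ, δ * (2 * n ^ 2) < 1 ∧ UpperDensityLE (fun v => v ∉ S ∧ ¬ CongruentAt m ρ ρ' v) δ

/-- For every `D` the Selmer groups of the `ρ'` near `ρ` with `dim (ρ')^{D i} ≥ dim ρ^{D i}` are not larger than the
one of `ρ`. -/
def Semicontinuous (S : Set (HeightOneSpectrum (𝓞 K))) (ρ : Rep K ℓ n) (Near : ℕ → Rep K ℓ n → Prop) : Prop :=
  ∀ (r : ℕ) (D : Fin r → Subgroup (GK K)), ∃ m : ℕ, ∀ ρ' : Rep K ℓ n, Near m ρ' →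
    (∀ i, finrank (PadicAlgCl ℓ) (Invariants ρ (D i)) ≤ finrank (PadicAlgCl ℓ) (Invariants ρ' (D i))) →
    finrank (PadicAlgCl ℓ) (Selmer S ρ' D) ≤ finrank (PadicAlgCl ℓ) (Selmer S ρ D)

end

/-! ### The proof -/

section bridge

variable {K : Type} [Field K] [NumberField K] {ℓ : ℕ} [Fact ℓ.Prime] {n : ℕ}
  {S : Set (HeightOneSpectrum (𝓞 K))} {ρ : Rep K ℓ n} {r : ℕ} {D : Fin r → Subgroup (GK K)}

theorem mem_cocycles {c : GK K → Fin n → PadicAlgCl ℓ} :
    c ∈ Cocycles S ρ D ↔ c ∈ CocM (mt ρ) (Inr S) fun i => (D i : Set (GK K)) :=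
  ⟨fun h => ⟨h.1, h.2.1, fun σ ⟨v, hv, hσ⟩ => h.2.2.1 v hv σ hσ, h.2.2.2⟩,
    fun h => ⟨h.1, h.2.1, fun v hv σ hσ => h.2.2.1 σ ⟨v, hv, hσ⟩, h.2.2.2⟩⟩

theorem mem_coboundaries {c : GK K → Fin n → PadicAlgCl ℓ} :
    c ∈ Coboundaries ρ ↔ c ∈ LinearMap.range (cob (mt ρ)) :=
  ⟨fun ⟨x, hx⟩ => ⟨x, funext fun σ => (hx σ).symm⟩, fun ⟨x, hx⟩ => ⟨x, fun σ => (congrFun hx σ).symm⟩⟩

theorem sum_mk {d : ℕ} (c : Fin d → Cocycles S ρ D) (a : Fin d → PadicAlgCl ℓ) :
    ∑ i, a i • (Submodule.Quotient.mk (c i) : Selmer S ρ D) = 0 ↔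
      ∑ i, a i • ((c i : Cocycles S ρ D) : GK K → Fin n → PadicAlgCl ℓ) ∈ LinearMap.range (cob (mt ρ)) := by
  have h1 : ∑ i, a i • (Submodule.Quotient.mk (c i) : Selmer S ρ D) = Submodule.Quotient.mk (∑ i, a i • c i) := by
    rw [← Submodule.mkQ_apply, map_sum]
    refine Finset.sum_congr rfl fun i _ => ?_
    rw [map_smul, Submodule.mkQ_apply]
  rw [h1, Submodule.Quotient.mk_eq_zero, ← mem_coboundaries]
  have h2 : ((∑ i, a i • c i : Cocycles S ρ D) : GK K → Fin n → PadicAlgCl ℓ) =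
      ∑ i, a i • ((c i : Cocycles S ρ D) : GK K → Fin n → PadicAlgCl ℓ) := by
    rw [Submodule.coe_sum]
    rfl
  rw [← h2]
  rfl

theorem rank_of_rankF {d : ℕ} (hρ : Continuous ρ) (h : RankF (mt ρ) S (fun i => (D i : Set (GK K))) d) :
    FiniteDimensional (PadicAlgCl ℓ) (Selmer S ρ D) ∧ finrank (PadicAlgCl ℓ) (Selmer S ρ D) ≤ d := by
  have h1 : Module.rank (PadicAlgCl ℓ) (Selmer S ρ D) ≤ d := by
    refine rank_le fun s hs => ?_
    by_contra hcard
    push Not at hcard
    obtain ⟨e⟩ : Nonempty (Fin (d + 1) ↪ s) := by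
      refine Function.Embedding.nonempty_of_card_le ?_
      rw [Fintype.card_fin, Fintype.card_coe]
      exact hcard
    have h2 := hs.comp e e.injective
    choose c hc using fun i => Submodule.Quotient.mk_surjective _ ((e i : s) : Selmer S ρ D)
    obtain ⟨a, ha, h3⟩ := h (fun i => ((c i : Cocycles S ρ D) : GK K → Fin n → PadicAlgCl ℓ)) fun i =>
      ⟨mem_cocycles.1 (c i).2, fin1_of_coc (mt_cont hρ) (c i).2.1 (c i).2.2.1⟩
    have h4 := (sum_mk c a).2 h3
    simp only [hc] at h4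
    exact ha (funext fun i => Fintype.linearIndependent_iff.1 h2 a h4 i)
  have h2 : FiniteDimensional (PadicAlgCl ℓ) (Selmer S ρ D) :=
    Module.rank_lt_aleph0_iff.1 (lt_of_le_of_lt h1 (Cardinal.natCast_lt_aleph0))
  refine ⟨h2, ?_⟩
  rw [← finrank_eq_rank] at h1
  exact_mod_cast h1

theorem rankF_of_rank [FiniteDimensional (PadicAlgCl ℓ) (Selmer S ρ D)] :
    RankF (mt ρ) S (fun i => (D i : Set (GK K))) (finrank (PadicAlgCl ℓ) (Selmer S ρ D)) := by
  intro c hc
  set c' : Fin (finrank (PadicAlgCl ℓ) (Selmer S ρ D) + 1) → Cocycles S ρ D := fun i =>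
    ⟨c i, mem_cocycles.2 (hc i).1⟩ with hc'
  have h1 : ¬ LinearIndependent (PadicAlgCl ℓ) fun i => (Submodule.Quotient.mk (c' i) : Selmer S ρ D) := by
    intro h
    have := h.fintype_card_le_finrank
    rw [Fintype.card_fin] at this
    exact Nat.not_succ_le_self _ this
  obtain ⟨a, ha, i, hi⟩ := Fintype.not_linearIndependent_iff.1 h1
  exact ⟨a, fun h => hi (congrFun h i), (sum_mk c' a).1 ha⟩

theorem semi (hS : S.Finite) (hρ : Unramified S ρ) (hirr : Irreducible ρ) :
    ∃ m : ℕ, ∀ ρ' : Rep K ℓ n, Unramified S ρ' → (∀ σ, ‖tr ρ σ - tr ρ' σ‖ ≤ ‖(ℓ : PadicAlgCl ℓ)‖ ^ m) →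
      (∀ i, finrank (PadicAlgCl ℓ) (Invariants ρ (D i)) ≤ finrank (PadicAlgCl ℓ) (Invariants ρ' (D i))) →
      finrank (PadicAlgCl ℓ) (Selmer S ρ' D) ≤ finrank (PadicAlgCl ℓ) (Selmer S ρ D) := by
  obtain ⟨d, hd⟩ := exists_rankF hS (gd_of_cont hρ.1 hρ.2) fun i => (D i : Set (GK K))
  have := (rank_of_rankF hρ.1 hd).1
  obtain ⟨m, hm⟩ := semicont hS (gd_of_cont hρ.1 hρ.2) hirr (fun i => (D i : Set (GK K))) (rankF_of_rank (D := D))
  exact ⟨m, fun ρ' hρ' h1 h2 => (rank_of_rankF hρ'.1 (hm ρ' (gd_of_cont hρ'.1 hρ'.2) h1 h2)).2⟩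

end bridge

theorem result (K : Type) [Field K] [NumberField K] (ℓ : ℕ) [Fact ℓ.Prime] (n : ℕ)
    (S : Set (HeightOneSpectrum (𝓞 K))) (hS : S.Finite) :
    (∀ ρ : Rep K ℓ n, Unramified S ρ → ∀ (r : ℕ) (D : Fin r → Subgroup (GK K)),
      FiniteDimensional (PadicAlgCl ℓ) (Selmer S ρ D)) ∧
    (∀ ρ : Rep K ℓ n, Unramified S ρ → Irreducible ρ →
      Semicontinuous S ρ fun m ρ' => Unramified S ρ' ∧ CongruentMostly S m ρ ρ') ∧
    ∀ U : Subgroup (GK K), IsOpen (U : Set (GK K)) → ∃ P : Finset (HeightOneSpectrum (𝓞 K)), (∀ v ∈ P, v ∉ S) ∧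
      ∀ ρ : Rep K ℓ n, AdmAdic S U ρ → Irreducible ρ →
        Semicontinuous S ρ fun m ρ' => AdmAdic S U ρ' ∧ ∀ v ∈ P, CongruentAt m ρ ρ' v := by
  refine ⟨fun ρ hρ r D => ?_, fun ρ hρ hirr r D => ?_, fun U hU => ?_⟩
  · obtain ⟨d, hd⟩ := exists_rankF hS (gd_of_cont hρ.1 hρ.2) fun i => (D i : Set (GK K))
    exact (rank_of_rankF hρ.1 hd).1
  · obtain ⟨m, hm⟩ := semi (D := D) hS hρ hirr
    refine ⟨m, fun ρ' ⟨hρ', δ, hδ, h⟩ hi => hm ρ' hρ' (fun σ => ?_) hi⟩
    exact traces_most hS hρ.1 hρ'.1 m δ hδ h σ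
  · obtain ⟨P, hPS, hP⟩ := exists_P S hS U hU ℓ n
    refine ⟨P, hPS, fun ρ hρ hirr r D => ?_⟩
    obtain ⟨m, hm⟩ := semi (D := D) hS ⟨hρ.1, hρ.2.1⟩ hirr
    exact ⟨m, fun ρ' ⟨hρ', h⟩ hi => hm ρ' ⟨hρ'.1, hρ'.2.1⟩ (fun σ =>
      isometry (ℓ := ℓ) hP ρ ρ' hρ hρ' _ (pow_nonneg (norm_nonneg _) _) h σ) hi⟩

end Pool.Agent.Results.MP_7c08ba_nt.SelmerSemicontinuity
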